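import Pool.Agent.PSP.Space
import Pool.Agent.PolyTime.More

/-!
# ARC-KAYLES is in PSPACE: depth-first search of the game tree
-/

namespace PSP

open NPC Function FP

namespace Mem

/-! ### Adjacency matrices -/

theorem idx_lt {N i j : ℕ} (hi : i < N) (hj : j < N) : i * N + j < N * N := by
  calc i * N + j < (i + 1) * N := by rw [add_mul]; omega
    _ ≤ N * N := Nat.mul_le_mul_right _ hi

theorem idx_div {N i j : ℕ} (hj : j < N) : (i * N + j) / N = i := by
  rw [Nat.add_comm, Nat.add_mul_div_right _ _ (Nat.lt_of_le_of_lt (Nat.zero_le _) hj),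
    Nat.div_eq_of_lt hj, Nat.zero_add]

theorem idx_mod {N i j : ℕ} (hj : j < N) : (i * N + j) % N = j := by
  rw [Nat.add_comm, Nat.add_mul_mod_self_right, Nat.mod_eq_of_lt hj]

theorem div_lt {N m : ℕ} (hm : m < N * N) : m / N < N := Nat.div_lt_of_lt_mul hm

theorem mod_lt {N m : ℕ} (hm : m < N * N) : m % N < N :=
  Nat.mod_lt _ (Nat.pos_of_ne_zero (by rintro rfl; simp at hm))

theorem adjStr_eq {N : ℕ} (G : SimpleGraph (Fin N)) [DecidableRel G.Adj] :
    adjStr G = List.ofFn (fun k : Fin (N * N) => decide (G.Adj k.divNat k.modNat)) := by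
  rw [List.ofFn_mul, adjStr, List.flatMap_def, List.ofFn_eq_map]
  congr 1
  apply List.map_congr_left
  intro i _
  rw [List.ofFn_eq_map]
  apply List.map_congr_left
  intro j _
  have h1 : (⟨(i : ℕ) * N + j, idx_lt i.2 j.2⟩ : Fin (N * N)).divNat = i :=
    Fin.ext (idx_div j.2)
  have h2 : (⟨(i : ℕ) * N + j, idx_lt i.2 j.2⟩ : Fin (N * N)).modNat = j :=
    Fin.ext (idx_mod j.2)
  simp only [h1, h2]
  congr

theorem length_adjStr {N : ℕ} (G : SimpleGraph (Fin N)) : (adjStr G).length = N * N := by
  classical
  rw [adjStr_eq, List.length_ofFn]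

theorem getD_adjStr {N : ℕ} (G : SimpleGraph (Fin N)) (u v : Fin N) :
    (adjStr G).getD (u * N + v) false = true ↔ G.Adj u v := by
  classical
  rw [adjStr_eq, List.getD_eq_getElem _ _ (by rw [List.length_ofFn]; exact idx_lt u.2 v.2),
    List.getElem_ofFn]
  have h1 : (⟨(u : ℕ) * N + v, idx_lt u.2 v.2⟩ : Fin (N * N)).divNat = u :=
    Fin.ext (idx_div v.2)
  have h2 : (⟨(u : ℕ) * N + v, idx_lt u.2 v.2⟩ : Fin (N * N)).modNat = v :=
    Fin.ext (idx_mod v.2)
  simp only [h1, h2, decide_eq_true_eq]

/-- the graph with the adjacency matrix `x` -/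
def gr (x : List Bool) (N : ℕ) : SimpleGraph (Fin N) :=
  SimpleGraph.fromRel (fun u v => x.getD (u.1 * N + v.1) false = true)

/-- `x` is an adjacency matrix -/
def valid (x : List Bool) : Bool :=
  decide (x.length = x.length.sqrt * x.length.sqrt) &&
  (List.range x.length).all (fun k =>
    decide (x.getD k false = x.getD ((k % x.length.sqrt) * x.length.sqrt + k / x.length.sqrt) false)
      && (!decide (k / x.length.sqrt = k % x.length.sqrt) || !(x.getD k false)))

theorem valid_iff (x : List Bool) : valid x = true ↔ ∃ N, x.length = N * N ∧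
    ∀ u v : Fin N, x.getD (u.1 * N + v.1) false = x.getD (v.1 * N + u.1) false ∧
      x.getD (u.1 * N + u.1) false = false := by
  unfold valid
  simp only [Bool.and_eq_true, decide_eq_true_eq, List.all_eq_true, List.mem_range,
    Bool.or_eq_true, Bool.not_eq_true', decide_eq_false_iff_not]
  constructor
  · rintro ⟨h1, h2⟩
    refine ⟨x.length.sqrt, h1, fun u v => ⟨?_, ?_⟩⟩
    · have h3 := (h2 (u.1 * x.length.sqrt + v.1) (by
        have := idx_lt u.2 v.2; omega)).1
      rw [idx_div v.2, idx_mod v.2] at h3
      exact h3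
    · have h3 := (h2 (u.1 * x.length.sqrt + u.1) (by
        have := idx_lt u.2 u.2; omega)).2
      rw [idx_div u.2, idx_mod u.2] at h3
      simpa using h3
  · rintro ⟨N, h1, h2⟩
    have hN : x.length.sqrt = N := by rw [h1, Nat.sqrt_eq]
    rw [hN]
    refine ⟨h1, fun k hk => ?_⟩
    rw [h1] at hk
    have h3 := h2 ⟨k / N, div_lt hk⟩ ⟨k % N, mod_lt hk⟩
    simp only at h3
    have h4 : k / N * N + k % N = k := Nat.div_add_mod' k N
    rw [h4] at h3
    refine ⟨h3.1, ?_⟩
    by_cases h5 : k / N = k % N
    · right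
      rw [h5] at h3 h4
      rw [← h4]
      exact h3.2
    · exact Or.inl h5

theorem gr_adj {x : List Bool} {N : ℕ}
    (h : ∀ u v : Fin N, x.getD (u.1 * N + v.1) false = x.getD (v.1 * N + u.1) false ∧
      x.getD (u.1 * N + u.1) false = false) (u v : Fin N) :
    (gr x N).Adj u v ↔ x.getD (u.1 * N + v.1) false = true := by
  unfold gr
  rw [SimpleGraph.fromRel_adj, ← (h u v).1, or_self]
  constructor
  · exact fun h => h.2
  · intro h1
    refine ⟨?_, h1⟩
    rintro rfl
    rw [(h u u).2] at h1
    exact Bool.false_ne_true h1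

theorem mem_arcKayles_iff (x : List Bool) : x ∈ arcKayles ↔
    valid x = true ∧ ArcK.FirstWins (gr x x.length.sqrt) := by
  rw [valid_iff]
  constructor
  · rintro ⟨N, G, rfl, hG⟩
    have h1 : ∀ u v : Fin N, (adjStr G).getD (u.1 * N + v.1) false =
        (adjStr G).getD (v.1 * N + u.1) false ∧ (adjStr G).getD (u.1 * N + u.1) false = false := by
      intro u v
      constructor
      · rw [Bool.eq_iff_iff, getD_adjStr, getD_adjStr]
        exact G.adj_comm u v
      · rw [← Bool.not_eq_true, getD_adjStr]
        exact G.loopless.irrefl u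
    refine ⟨⟨N, length_adjStr G, h1⟩, ?_⟩
    rw [length_adjStr, Nat.sqrt_eq]
    have h2 : gr (adjStr G) N = G := by
      ext u v
      rw [gr_adj h1, getD_adjStr]
    rw [h2]
    exact hG
  · rintro ⟨⟨N, h1, h2⟩, h3⟩
    rw [h1, Nat.sqrt_eq] at h3
    refine ⟨N, gr x N, ?_, h3⟩
    apply List.ext_getElem
    · rw [h1, length_adjStr]
    · intro k hk hk'
      rw [h1] at hk
      have h4 : k / N * N + k % N = k := Nat.div_add_mod' k N
      have h5 := getD_adjStr (gr x N) ⟨k / N, div_lt hk⟩ ⟨k % N, mod_lt hk⟩
      rw [gr_adj h2] at h5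
      simp only [h4] at h5
      rw [List.getD_eq_getElem _ _ hk', List.getD_eq_getElem _ _ (by omega)] at h5
      rw [Bool.eq_iff_iff]
      exact h5.symm

/-! ### The search -/

/-- the move `m` (the edge from `m / N` to `m % N`) is legal after the moves of `path` -/
def legal (x : List Bool) (N : ℕ) (path : List ℕ) (m : ℕ) : Bool :=
  x.getD m false && path.all (fun a =>
    (!decide (a / N = m / N) && !decide (a % N = m / N)) &&
    (!decide (a / N = m % N) && !decide (a % N = m % N)))

/-- the states: the matrix, the number of vertices, the moves which have been played, the next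
candidate and the result -/
abbrev St := List Bool × ℕ × List ℕ × ℕ × Option Bool

/-- the step of the search -/
def step (s : St) : St :=
  bif s.2.2.2.2.isSome then s
  else bif decide (s.2.2.2.1 < s.2.1 * s.2.1) then
    bif legal s.1 s.2.1 s.2.2.1 s.2.2.2.1 then (s.1, s.2.1, s.2.2.2.1 :: s.2.2.1, 0, none)
    else (s.1, s.2.1, s.2.2.1, s.2.2.2.1 + 1, none)
  else bif s.2.2.1.isEmpty then (s.1, s.2.1, s.2.2.1, s.2.2.2.1, some false)
  else bif s.2.2.1.tail.isEmpty then (s.1, s.2.1, s.2.2.1, s.2.2.2.1, some true)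
  else (s.1, s.2.1, s.2.2.1.tail.tail, s.2.2.1.tail.headD 0 + 1, none)

/-- the initial state -/
def init (x : List Bool) : St :=
  (x, x.length.sqrt, [], 0, bif valid x then none else some false)

/-- the halting states -/
def halt (s : St) : Bool := s.2.2.2.2.isSome

/-- the output -/
def out (s : St) : Bool := s.2.2.2.2.getD false

theorem poly_sqrt_length : Poly (fun x : List Bool => x.length.sqrt) :=
  Poly.sqrt (by fun_prop) (by fun_prop)

theorem poly_valid : Poly valid := by
  have h := poly_sqrt_length
  have h2 : Poly (fun p : List Bool × ℕ => p.1.length.sqrt) :=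
    h.comp (f := fun p : List Bool × ℕ => p.1) (by fun_prop)
  unfold valid
  fun_prop

theorem poly_init : Poly init := by
  have h := poly_sqrt_length
  have h2 := poly_valid
  unfold init
  fun_prop

theorem poly_legal : Poly (fun s : St => legal s.1 s.2.1 s.2.2.1 s.2.2.2.1) := by
  unfold legal
  fun_prop

theorem poly_step : Poly step := by
  have h := poly_legal
  unfold step
  fun_prop

theorem poly_halt : Poly halt := by
  unfold halt
  fun_prop

theorem poly_out : Poly out := by
  unfold out
  fun_prop

/-! ### The size of the states -/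

theorem size_list_le (C : ℕ) : ∀ l : List ℕ, (∀ a ∈ l, a < C) → size l ≤ l.length * (2 * C + 1)
  | [], _ => by simp [size_nil]
  | a :: l, h => by
    have h1 := size_list_le C l (fun b hb => h b (List.mem_cons_of_mem _ hb))
    have h2 := size_nat_le a
    have h3 := h a List.mem_cons_self
    rw [size_cons, List.length_cons, add_mul]
    omega

/-- the invariant -/
def Inv (x : List Bool) (s : St) : Prop :=
  s.1 = x ∧ s.2.1 = x.length.sqrt ∧ (∀ a ∈ s.2.2.1, a < x.length.sqrt * x.length.sqrt) ∧
  (s.2.2.1.map (fun a => a / x.length.sqrt)).Nodup ∧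
  s.2.2.2.1 ≤ x.length.sqrt * x.length.sqrt

theorem inv_init (x : List Bool) : Inv x (init x) := by
  refine ⟨rfl, rfl, ?_, ?_, Nat.zero_le _⟩
  · intro a ha
    simp [init] at ha
  · simp [init]

theorem inv_step {x : List Bool} {s : St} (h : Inv x s) : Inv x (step s) := by
  obtain ⟨y, N, path, m, res⟩ := s
  obtain ⟨h1, h2, h3, h4, h5⟩ := h
  simp only at h1 h2 h3 h4 h5
  subst h1
  rw [← h2] at h3 h4 h5
  unfold Inv
  rw [← h2]
  unfold step
  simp only
  rcases hr : res.isSome with _ | _
  · simp only [cond_false]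
    by_cases hm : m < N * N
    · simp only [hm, decide_true, cond_true]
      rcases hl : legal y N path m with _ | _
      · simp only [cond_false]
        exact ⟨trivial, trivial, h3, h4, hm⟩
      · simp only [cond_true]
        refine ⟨trivial, trivial, ?_, ?_, Nat.zero_le _⟩
        · intro a ha
          rcases List.mem_cons.1 ha with rfl | ha
          · exact hm
          · exact h3 a ha
        · rw [List.map_cons, List.nodup_cons]
          refine ⟨?_, h4⟩
          intro ha
          obtain ⟨a, ha, hb⟩ := List.mem_map.1 ha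
          simp only [legal, Bool.and_eq_true, List.all_eq_true, Bool.not_eq_true',
            decide_eq_false_iff_not] at hl
          exact (hl.2 a ha).1.1 hb
    · simp only [hm, decide_false, cond_false]
      rcases path with _ | ⟨a, _ | ⟨b, rest⟩⟩
      · simp only [List.isEmpty_nil, cond_true]
        exact ⟨trivial, trivial, h3, h4, h5⟩
      · simp only [List.isEmpty_cons, List.tail_cons, List.isEmpty_nil, cond_true, cond_false]
        exact ⟨trivial, trivial, h3, h4, h5⟩
      · simp only [List.isEmpty_cons, List.tail_cons, List.headD_cons, cond_false]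
        refine ⟨trivial, trivial, ?_, ?_, ?_⟩
        · intro c hc
          exact h3 c (List.mem_cons_of_mem _ (List.mem_cons_of_mem _ hc))
        · rw [List.map_cons, List.map_cons] at h4
          exact (List.nodup_cons.1 (List.nodup_cons.1 h4).2).2
        · have := h3 b (List.mem_cons_of_mem _ List.mem_cons_self)
          omega
  · simp only [cond_true]
    exact ⟨trivial, trivial, h3, h4, h5⟩

theorem inv_iterate (x : List Bool) (t : ℕ) : Inv x (step^[t] (init x)) := by
  induction t with
  | zero => exact inv_init x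
  | succ t ih =>
    rw [Function.iterate_succ_apply']
    exact inv_step ih

theorem length_path_le {N : ℕ} {path : List ℕ} (h1 : ∀ a ∈ path, a < N * N)
    (h2 : (path.map (fun a => a / N)).Nodup) : path.length ≤ N := by
  have h3 : (path.map (fun a => a / N)) ⊆ List.range N := by
    intro b hb
    obtain ⟨a, ha, rfl⟩ := List.mem_map.1 hb
    exact List.mem_range.2 (div_lt (h1 a ha))
  have h4 := (h2.subperm h3).length_le
  rwa [List.length_map, List.length_range] at h4

theorem size_le {x : List Bool} {s : St} (h : Inv x s) :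
    size s ≤ 4 * (x.length * x.length) + 20 * x.length + 20 := by
  obtain ⟨y, N, path, m, res⟩ := s
  obtain ⟨h1, h2, h3, h4, h5⟩ := h
  simp only at h1 h2 h3 h4 h5
  subst h1
  rw [← h2] at h3 h4 h5
  have hN : N * N ≤ y.length := by rw [h2]; exact Nat.sqrt_le y.length
  have hN' : N ≤ y.length := by rw [h2]; exact Nat.sqrt_le_self _
  have h6 := length_path_le h3 h4
  have h7 := size_list_le (N * N) path h3
  have h8 : size res ≤ 2 := by
    rcases res with _ | b
    · simp [size_none]
    · rw [size_some, size_bool]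
  have h9 := size_nat_le m
  have h10 := size_nat_le N
  rw [size_pair, size_pair, size_pair, size_pair, size_str]
  have h11 : path.length * (2 * (N * N) + 1) ≤ y.length * (2 * y.length + 1) := by
    apply Nat.mul_le_mul (h6.trans hN')
    omega
  have h12 : y.length * (2 * y.length + 1) = 2 * (y.length * y.length) + y.length := by ring
  omega

/-! ### Correctness -/

section
variable {x : List Bool} {N : ℕ} {G : SimpleGraph (Fin N)}

/-- the vertices which are still present after the moves of `path` -/
def rem (N : ℕ) (path : List ℕ) : Finset (Fin N) :=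
  Finset.univ.filter (fun w => ∀ a ∈ path, a / N ≠ w.1 ∧ a % N ≠ w.1)

theorem mem_rem {path : List ℕ} {w : Fin N} :
    w ∈ rem N path ↔ ∀ a ∈ path, a / N ≠ w.1 ∧ a % N ≠ w.1 := by
  simp [rem]

theorem rem_nil : rem N [] = Finset.univ := by
  ext w
  simp [mem_rem]

theorem rem_cons {path : List ℕ} {m : ℕ} (hm : m < N * N) :
    rem N (m :: path) = ((rem N path).erase ⟨m / N, div_lt hm⟩).erase ⟨m % N, mod_lt hm⟩ := by
  ext w
  rw [Finset.mem_erase, Finset.mem_erase, mem_rem, mem_rem, List.forall_mem_cons]
  constructor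
  · rintro ⟨⟨h1, h2⟩, h3⟩
    exact ⟨fun h => h2 (by rw [h]), fun h => h1 (by rw [h]), h3⟩
  · rintro ⟨h1, h2, h3⟩
    exact ⟨⟨fun h => h2 (Fin.ext h.symm), fun h => h1 (Fin.ext h.symm)⟩, h3⟩

theorem legal_iff (hG : ∀ u v : Fin N, G.Adj u v ↔ x.getD (u.1 * N + v.1) false = true)
    {path : List ℕ} {m : ℕ} (hm : m < N * N) : legal x N path m = true ↔
      G.Adj ⟨m / N, div_lt hm⟩ ⟨m % N, mod_lt hm⟩ ∧
      ⟨m / N, div_lt hm⟩ ∈ rem N path ∧ ⟨m % N, mod_lt hm⟩ ∈ rem N path := by
  rw [hG, mem_rem, mem_rem, Nat.div_add_mod']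
  simp only [legal, Bool.and_eq_true, List.all_eq_true, Bool.not_eq_true',
    decide_eq_false_iff_not]
  constructor
  · rintro ⟨h1, h2⟩
    exact ⟨h1, fun a ha => (h2 a ha).1, fun a ha => (h2 a ha).2⟩
  · rintro ⟨h1, h2, h3⟩
    exact ⟨h1, fun a ha => ⟨h2 a ha, h3 a ha⟩⟩

theorem card_rem_lt (hG : ∀ u v : Fin N, G.Adj u v ↔ x.getD (u.1 * N + v.1) false = true)
    {path : List ℕ} {m : ℕ} (hm : m < N * N) (hl : legal x N path m = true) :
    (rem N (m :: path)).card < (rem N path).card := by
  rw [rem_cons hm]
  exact (Finset.card_le_card (Finset.erase_subset _ _)).trans_lt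
    (Finset.card_erase_lt_of_mem ((legal_iff hG hm).1 hl).2.1)

/-- a winning move `m' ≥ m` exists -/
def WinFrom (x : List Bool) (N : ℕ) (G : SimpleGraph (Fin N)) (path : List ℕ) (m : ℕ) : Prop :=
  ∃ m', m ≤ m' ∧ m' < N * N ∧ legal x N path m' = true ∧ ¬ ArcK.Wins G (rem N (m' :: path))

theorem wins_rem_iff (hG : ∀ u v : Fin N, G.Adj u v ↔ x.getD (u.1 * N + v.1) false = true)
    (path : List ℕ) : ArcK.Wins G (rem N path) ↔ WinFrom x N G path 0 := by
  rw [ArcK.Wins]
  constructor
  · rintro ⟨u, v, hu, hv, h1, h2⟩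
    have hm := idx_lt u.2 v.2
    have hu' : (⟨(u.1 * N + v.1) / N, div_lt hm⟩ : Fin N) = u := Fin.ext (idx_div v.2)
    have hv' : (⟨(u.1 * N + v.1) % N, mod_lt hm⟩ : Fin N) = v := Fin.ext (idx_mod v.2)
    refine ⟨u.1 * N + v.1, Nat.zero_le _, hm, ?_, ?_⟩
    · rw [legal_iff hG hm, hu', hv']
      exact ⟨h1, hu, hv⟩
    · rw [rem_cons hm, hu', hv']
      exact h2
  · rintro ⟨m, -, hm, h1, h2⟩
    rw [legal_iff hG hm] at h1
    rw [rem_cons hm] at h2
    exact ⟨_, _, h1.2.1, h1.2.2, h1.1, h2⟩

/-- `s'` is reached from `s` -/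
def Rch (s s' : St) : Prop := ∃ t, step^[t] s = s'

theorem Rch.refl (s : St) : Rch s s := ⟨0, rfl⟩

theorem Rch.trans {s s' s'' : St} (h : Rch s s') (h' : Rch s' s'') : Rch s s'' := by
  obtain ⟨t, rfl⟩ := h
  obtain ⟨t', rfl⟩ := h'
  exact ⟨t' + t, Function.iterate_add_apply _ _ _ _⟩

theorem Rch.one (s : St) : Rch s (step s) := ⟨1, rfl⟩

theorem step_legal {path : List ℕ} {m : ℕ} (hm : m < N * N) (hl : legal x N path m = true) :
    step (x, N, path, m, none) = (x, N, m :: path, 0, none) := by
  simp [step, hm, hl]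

theorem step_illegal {path : List ℕ} {m : ℕ} (hm : m < N * N) (hl : legal x N path m = false) :
    step (x, N, path, m, none) = (x, N, path, m + 1, none) := by
  simp [step, hm, hl]

theorem step_nil : step (x, N, [], N * N, none) = (x, N, [], N * N, some false) := by
  simp [step]

theorem step_one {a : ℕ} : step (x, N, [a], N * N, none) = (x, N, [a], N * N, some true) := by
  simp [step]

theorem step_two {a b : ℕ} {path : List ℕ} :
    step (x, N, a :: b :: path, N * N, none) = (x, N, path, b + 1, none) := by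
  simp [step]

theorem dfs (hG : ∀ u v : Fin N, G.Adj u v ↔ x.getD (u.1 * N + v.1) false = true) :
    ∀ (c : ℕ) (path : List ℕ), (rem N path).card ≤ c → ∀ (d m : ℕ), m + d = N * N →
      (¬ WinFrom x N G path m → Rch (x, N, path, m, none) (x, N, path, N * N, none)) ∧
      (WinFrom x N G path m → ∃ m', Rch (x, N, path, m, none) (x, N, m' :: path, N * N, none)) := by
  intro c
  induction c using Nat.strong_induction_on with
  | _ c ihc =>
  intro path hpath d
  induction d with
  | zero =>
    intro m hm
    rw [Nat.add_zero] at hm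
    subst hm
    refine ⟨fun _ => Rch.refl _, ?_⟩
    rintro ⟨m', h1, h2, -⟩
    omega
  | succ d ihd =>
    intro m hm
    have hm' : m < N * N := by omega
    have ih := ihd (m + 1) (by omega)
    -- the rest of the scan
    have key : ¬ (legal x N path m = true ∧ ¬ ArcK.Wins G (rem N (m :: path))) →
        Rch (x, N, path, m, none) (x, N, path, m + 1, none) →
        (¬ WinFrom x N G path m → Rch (x, N, path, m, none) (x, N, path, N * N, none)) ∧
        (WinFrom x N G path m →
          ∃ m', Rch (x, N, path, m, none) (x, N, m' :: path, N * N, none)) := by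
      intro h1 h2
      have h3 : WinFrom x N G path m ↔ WinFrom x N G path (m + 1) := by
        constructor
        · rintro ⟨m', h4, h5, h6, h7⟩
          rcases Nat.eq_or_lt_of_le h4 with rfl | h4
          · exact absurd ⟨h6, h7⟩ h1
          · exact ⟨m', h4, h5, h6, h7⟩
        · rintro ⟨m', h4, h5, h6, h7⟩
          exact ⟨m', by omega, h5, h6, h7⟩
      rw [h3]
      refine ⟨fun h => h2.trans (ih.1 h), fun h => ?_⟩
      obtain ⟨m', hm'⟩ := ih.2 h
      exact ⟨m', h2.trans hm'⟩
    rcases hl : legal x N path m with _ | _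
    · refine key (by simp [hl]) ?_
      have := Rch.one (x, N, path, m, none)
      rwa [step_illegal hm' hl] at this
    · have h1 := Rch.one (x, N, path, m, none)
      rw [step_legal hm' hl] at h1
      have h2 := ihc (rem N (m :: path)).card ((card_rem_lt hG hm' hl).trans_le hpath)
        (m :: path) le_rfl (N * N) 0 (by omega)
      rw [← wins_rem_iff hG] at h2
      by_cases hw : ArcK.Wins G (rem N (m :: path))
      · refine key (fun h => h.2 hw) ?_
        obtain ⟨m', h3⟩ := h2.2 hw
        have h4 := Rch.one (x, N, m' :: m :: path, N * N, none)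
        rw [step_two] at h4
        exact h1.trans (h3.trans h4)
      · refine ⟨fun h => absurd ⟨m, le_rfl, hm', hl, hw⟩ h, fun _ => ⟨m, h1.trans (h2.1 hw)⟩⟩

theorem search (hG : ∀ u v : Fin N, G.Adj u v ↔ x.getD (u.1 * N + v.1) false = true) :
    ∃ s, Rch (x, N, [], 0, none) s ∧ halt s = true ∧ (out s = true ↔ ArcK.FirstWins G) := by
  have h1 := dfs hG (rem N []).card [] le_rfl (N * N) 0 (by omega)
  rw [← wins_rem_iff hG, rem_nil] at h1
  by_cases hw : ArcK.Wins G Finset.univ
  · obtain ⟨m', h2⟩ := h1.2 hw
    have h3 := Rch.one (x, N, [m'], N * N, none)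
    rw [step_one] at h3
    exact ⟨_, h2.trans h3, rfl, ⟨fun _ => hw, fun _ => rfl⟩⟩
  · have h3 := Rch.one (x, N, [], N * N, none)
    rw [step_nil] at h3
    refine ⟨_, (h1.1 hw).trans h3, rfl, ⟨fun h => ?_, fun h => absurd h hw⟩⟩
    exact absurd h (by simp [out])

end

theorem search_init (x : List Bool) : ∃ s, Rch (init x) s ∧ halt s = true ∧
    (out s = true ↔ x ∈ arcKayles) := by
  rw [mem_arcKayles_iff]
  rcases hv : valid x with _ | _
  · refine ⟨init x, Rch.refl _, by simp [init, halt, hv], ?_⟩
    simp [init, out, hv]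
  · obtain ⟨N, h1, h2⟩ := (valid_iff x).1 hv
    have h3 : x.length.sqrt = N := by rw [h1, Nat.sqrt_eq]
    obtain ⟨s, h4, h5, h6⟩ := search (x := x) (gr_adj h2)
    refine ⟨s, ?_, h5, ?_⟩
    · have h7 : init x = (x, N, [], 0, none) := by simp [init, hv, h3]
      rw [h7]
      exact h4
    · rw [h6, h3]
      simp

theorem step_halt {s : St} (h : halt s = true) : step s = s := by
  unfold halt at h
  simp [step, h]

theorem iterate_halt {s : St} (h : halt s = true) (t : ℕ) : step^[t] s = s := by
  induction t with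
  | zero => rfl
  | succ t ih => rw [Function.iterate_succ_apply, step_halt h, ih]

end Mem

open Mem in
/-- ARC-KAYLES can be decided in polynomial space. -/
theorem arcKayles_mem : arcKayles ∈ PSPACE := by
  refine pspace_iterate init step halt out poly_init poly_step poly_halt poly_out
    (4 * (Polynomial.X * Polynomial.X) + 20 * Polynomial.X + 20) ?_ arcKayles ?_
  · intro x t
    have := size_le (inv_iterate x t)
    simpa using this
  · intro x
    obtain ⟨s, ⟨T, rfl⟩, h2, h3⟩ := search_init x
    have hex : ∃ t, halt (step^[t] (init x)) = true := ⟨T, h2⟩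
    classical
    refine ⟨Nat.find hex, Nat.find_spec hex, fun t' ht' => ?_, ?_⟩
    · have := Nat.find_min hex ht'
      simpa using this
    · have h4 : Nat.find hex ≤ T := Nat.find_min' hex h2
      have h5 : step^[T] (init x) = step^[Nat.find hex] (init x) := by
        have h6 : T = (T - Nat.find hex) + Nat.find hex := by omega
        conv_lhs => rw [h6]
        rw [Function.iterate_add_apply]
        exact iterate_halt (Nat.find_spec hex) _
      rw [← h5]
      exact h3

end PSP
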