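import Pool.Agent.PSP.Defs
import Pool.Agent.PolyTime.ThreeSat

/-!
# The reduction to ARC-KAYLES is computed in polynomial time
-/

namespace PSP

open Turing NPC Function FP

/-! ### The adjacency string -/

theorem length_flatMap_const {α β : Type} {N : ℕ} (f : α → List β) (hf : ∀ a, (f a).length = N) :
    ∀ l : List α, (l.flatMap f).length = l.length * N
  | [] => by simp
  | a :: l => by
    rw [List.flatMap_cons, List.length_append, hf, length_flatMap_const f hf l, List.length_cons]
    ring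

theorem flatMap_inj_const {α β : Type} {N : ℕ} (f g : α → List β) (hf : ∀ a, (f a).length = N)
    (hg : ∀ a, (g a).length = N) : ∀ l : List α, l.flatMap f = l.flatMap g → ∀ a ∈ l, f a = g a
  | [], _ => by simp
  | b :: l, h => by
    rw [List.flatMap_cons, List.flatMap_cons] at h
    obtain ⟨h1, h2⟩ := List.append_inj h (by rw [hf, hg])
    intro a ha
    rcases List.mem_cons.1 ha with rfl | ha
    · exact h1
    · exact flatMap_inj_const f g hf hg l h2 a ha

theorem length_adjStr {N : ℕ} (G : SimpleGraph (Fin N)) : (adjStr G).length = N * N := by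
  unfold adjStr
  rw [length_flatMap_const (N := N) _ (fun a => by simp), List.length_finRange]

theorem adjStr_inj {N : ℕ} {G H : SimpleGraph (Fin N)} (h : adjStr G = adjStr H) : G = H := by
  classical
  unfold adjStr at h
  ext i j
  have h1 := flatMap_inj_const (N := N) _ _ (fun a => by simp) (fun a => by simp) _ h i
    (List.mem_finRange i)
  have h2 := List.map_inj_left.1 h1 j (List.mem_finRange j)
  simpa using h2

theorem adjStr_mem {N : ℕ} (G : SimpleGraph (Fin N)) : adjStr G ∈ arcKayles ↔ ArcK.FirstWins G := by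
  constructor
  · rintro ⟨M, H, h1, h2⟩
    have hl := congrArg List.length h1
    rw [length_adjStr, length_adjStr] at hl
    obtain rfl : N = M := Nat.mul_self_inj.1 hl
    rw [adjStr_inj h1]
    exact h2
  · intro h
    exact ⟨N, G, rfl, h⟩

/-- the adjacency matrix of `ArcK.graphOf N E` -/
def matStr (N : ℕ) (E : List (ℕ × ℕ)) : List Bool :=
  (List.range N).flatMap (fun i => (List.range N).map
    (fun j => decide (i ≠ j ∧ ((i, j) ∈ E ∨ (j, i) ∈ E))))

theorem adjStr_graphOf (N : ℕ) (E : List (ℕ × ℕ)) : adjStr (ArcK.graphOf N E) = matStr N E := by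
  classical
  unfold adjStr matStr
  rw [← List.map_coe_finRange_eq_range, List.flatMap_map]
  refine List.flatMap_congr fun i _ => ?_
  rw [List.map_map]
  refine List.map_congr_left fun j _ => ?_
  simp only [comp_apply, ArcK.graphOf, SimpleGraph.fromRel_adj, ne_eq, Fin.ext_iff]

/-! ### Polynomial time -/

section
variable {α : Type} [Code α]

theorem poly_matStr {N : α → ℕ} {E : α → List (ℕ × ℕ)} (hN : Poly N) (hb : PolyBdd N)
    (hE : Poly E) : Poly (fun a => matStr (N a) (E a)) := by
  have h1 : Poly (fun r : (α × ℕ) × ℕ =>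
      decide (r.1.2 ≠ r.2 ∧ ((r.1.2, r.2) ∈ E r.1.1 ∨ (r.2, r.1.2) ∈ E r.1.1))) := by fun_prop
  have h2 : Poly (fun q : α × ℕ => List.range (N q.1)) :=
    FP.Poly.range (by fun_prop) (by fun_prop)
  have h3 := FP.Poly.map (g := fun (q : α × ℕ) j =>
    decide (q.2 ≠ j ∧ ((q.2, j) ∈ E q.1 ∨ (j, q.2) ∈ E q.1))) h2 h1
  exact FP.Poly.flatMap (g := fun a i => (List.range (N a)).map
    (fun j => decide (i ≠ j ∧ ((i, j) ∈ E a ∨ (j, i) ∈ E a)))) (FP.Poly.range hN hb) h3

theorem poly_coreEdges {c : α → ℕ} (hc : Poly c) : Poly (fun a => ArcK.coreEdges (c a)) := by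
  unfold ArcK.coreEdges
  refine FP.Poly.map (g := fun a (e : ℕ × ℕ) => (32 * c a + e.1, 32 * c a + e.2))
    (FP.Poly.const _) (by fun_prop)

theorem poly_trigEdge {c : α → ℕ} (hc : Poly c) : Poly (fun a => ArcK.trigEdge (c a)) := by
  unfold ArcK.trigEdge
  fun_prop

theorem poly_lockEdges {c d r : α → ℕ} (hc : Poly c) (hd : Poly d) (hr : Poly r) :
    Poly (fun a => ArcK.lockEdges (c a) (d a) (r a)) := by
  unfold ArcK.lockEdges
  refine FP.Poly.map (g := fun a (k : ℕ) => (32 * c a + k, 32 * d a + r a))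
    (FP.Poly.const _) (by fun_prop)

theorem poly_chainEdges {c d : α → ℕ} (hc : Poly c) (hd : Poly d) :
    Poly (fun a => ArcK.chainEdges (c a) (d a)) := by
  unfold ArcK.chainEdges
  have h1 := poly_lockEdges hc hc (FP.Poly.const 18)
  have h2 := poly_lockEdges hc hd (FP.Poly.const 19)
  fun_prop

theorem poly_blockEdges {i : α → ℕ} (hi : Poly i) : Poly (fun a => ArcK.blockEdges (i a)) := by
  have b0 : Poly (fun a => 3 * i a) := by fun_prop
  have b1 : Poly (fun a => 3 * i a + 1) := by fun_prop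
  have b2 : Poly (fun a => 3 * i a + 2) := by fun_prop
  have b3 : Poly (fun a => 3 * i a + 3) := by fun_prop
  have h1 := poly_chainEdges b1 b0
  have h2 := poly_lockEdges b2 b1 (FP.Poly.const 19)
  have h3 := poly_lockEdges b2 b2 (FP.Poly.const 20)
  have h4 := poly_chainEdges b3 b2
  have h5 := poly_lockEdges b3 b2 (FP.Poly.const 20)
  unfold ArcK.blockEdges
  fun_prop

theorem poly_litToken {l : α → ℕ × Bool} (hl : Poly l) : Poly (fun a => ArcK.litToken (l a)) := by
  unfold ArcK.litToken
  fun_prop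

theorem poly_clauseEdges {n j : α → ℕ} {C : α → List (ℕ × Bool)} (hn : Poly n) (hj : Poly j)
    (hC : Poly C) : Poly (fun a => ArcK.clauseEdges (n a) (j a) (C a)) := by
  have h1 : Poly (fun a => ArcK.chainEdges (3 * n a + 1 + j a) (3 * n a)) :=
    poly_chainEdges (c := fun a => 3 * n a + 1 + j a) (d := fun a => 3 * n a) (by fun_prop)
      (by fun_prop)
  have h2 : Poly (fun q : α × (ℕ × Bool) => ArcK.litToken q.2) := poly_litToken (by fun_prop)
  have h3 : Poly (fun q : α × (ℕ × Bool) =>
      (ArcK.litToken q.2, 32 * (3 * n q.1 + 1 + j q.1) + 19)) := by fun_prop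
  have h4 := FP.Poly.map (g := fun a (l : ℕ × Bool) =>
    (ArcK.litToken l, 32 * (3 * n a + 1 + j a) + 19)) hC h3
  unfold ArcK.clauseEdges
  exact FP.Poly.append h1 h4

theorem poly_akEdges {n : α → ℕ} {F : α → List (List (ℕ × Bool))} (hn : Poly n) (hb : PolyBdd n)
    (hF : Poly F) : Poly (fun a => ArcK.akEdges (n a) (F a)) := by
  have r1 : Poly (fun a => List.range (3 * n a + 1 + (F a).length)) :=
    FP.Poly.range (by fun_prop) (by fun_prop)
  have r2 : Poly (fun a => List.range (3 * n a + 1)) :=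
    FP.Poly.range (by fun_prop) (by fun_prop)
  have r3 : Poly (fun a => List.range (n a)) := FP.Poly.range hn hb
  have h1 : Poly (fun q : α × ℕ => ArcK.coreEdges q.2) := poly_coreEdges (by fun_prop)
  have h2 : Poly (fun q : α × ℕ => ArcK.trigEdge q.2) := poly_trigEdge (by fun_prop)
  have h3 : Poly (fun q : α × ℕ => ArcK.blockEdges q.2) := poly_blockEdges (by fun_prop)
  have h4 : Poly (fun q : α × (List (ℕ × Bool) × ℕ) => ArcK.clauseEdges (n q.1) q.2.2 q.2.1) :=
    poly_clauseEdges (n := fun q : α × (List (ℕ × Bool) × ℕ) => n q.1) (j := fun q => q.2.2)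
      (C := fun q => q.2.1) (by fun_prop) (by fun_prop) (by fun_prop)
  have e1 := FP.Poly.flatMap (g := fun _ c => ArcK.coreEdges c) r1 h1
  have e2 := FP.Poly.map (g := fun _ c => ArcK.trigEdge c) r2 h2
  have e3 := FP.Poly.flatMap (g := fun _ c => ArcK.blockEdges c) r3 h3
  have e4 := FP.Poly.flatMap (g := fun a (x : List (ℕ × Bool) × ℕ) =>
    ArcK.clauseEdges (n a) x.2 x.1) (FP.Poly.zipIdx hF) h4
  unfold ArcK.akEdges
  exact FP.Poly.append (FP.Poly.append (FP.Poly.append e1 e2) e3) e4

end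

/-- Given the theorem on the game, everything that reduces to quantified Boolean formulas by typed
polynomial-time functions reduces to ARC-KAYLES. -/
theorem reduces_arcKayles
    (hred : ∀ (n : ℕ) (cls : List (List (ℕ × Bool))), (∀ C ∈ cls, ∀ l ∈ C, l.1 < 2 * n) →
      (ArcK.FirstWins (ArcK.graphOf (ArcK.akN n cls) (ArcK.akEdges n cls)) ↔ ArcK.QTrue n cls))
    {L : Set (List Bool)} (n : List Bool → ℕ) (F : List Bool → List (List (ℕ × Bool)))
    (hn : Poly n) (hb : PolyBdd n) (hF : Poly F)
    (hlt : ∀ x, ∀ C ∈ F x, ∀ l ∈ C, l.1 < 2 * n x)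
    (hL : ∀ x, x ∈ L ↔ ArcK.QTrue (n x) (F x)) : Reduces L arcKayles := by
  refine FP.reduces (fun x => matStr (ArcK.akN (n x) (F x)) (ArcK.akEdges (n x) (F x)))
    (poly_matStr ?_ ?_ (poly_akEdges hn hb hF)) fun x => ?_
  · unfold ArcK.akN
    fun_prop
  · unfold ArcK.akN
    fun_prop
  · rw [← adjStr_graphOf, adjStr_mem, hred _ _ (hlt x)]
    exact hL x

end PSP
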