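import Pool.Agent.PSP.Qbf
import Pool.Agent.PSP.Red
import Pool.Agent.PSP.Member

/-!
# ARC-KAYLES is PSPACE-complete, given the theorem on the game
-/

namespace PSP

/-- ARC-KAYLES is PSPACE-complete, given the correctness of the reduction from quantified Boolean
formulas. -/
theorem complete
    (hred : ∀ (n : ℕ) (cls : List (List (ℕ × Bool))), (∀ C ∈ cls, ∀ l ∈ C, l.1 < 2 * n) →
      (ArcK.FirstWins (ArcK.graphOf (ArcK.akN n cls) (ArcK.akEdges n cls)) ↔ ArcK.QTrue n cls)) :
    PSPACEComplete arcKayles :=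
  ⟨arcKayles_mem, fun _ hL => by
    obtain ⟨n, F, h1, h2, h3, h4, h5⟩ := pspace_qbf hL
    exact reduces_arcKayles hred n F h1 h2 h3 h4 h5⟩

end PSP
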