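import Pool.Agent.NPC.Defs
import Pool.Agent.ArcK.Defs

/-!
# Polynomial space over Mathlib's multi-stack Turing machines; ARC-KAYLES as a language
-/

namespace PSP

open Turing NPC Function

/-- The machine `M`, whose input and output alphabets are identified with `{0, 1, #}`, decides the
language `L` in space `s`. Started with a bit string `x` on its input stack, all the other stacks
being empty, `M` halts with the truth value of `x ∈ L` on its output stack, all the other stacks
being empty; and in the course of the computation no stack ever holds more than `s |x|` symbols. -/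
def DecidesInSpace (M : FinTM2) (inp : M.Γ M.k₀ ≃ Sym) (out : M.Γ M.k₁ ≃ Sym)
    (L : Set (List Bool)) (s : ℕ → ℕ) : Prop :=
  ∀ x : List Bool,
    (∃ b : Bool, (b = true ↔ x ∈ L) ∧
      Nonempty (TM2Outputs M ((encStr x).map inp.symm) (some ((encBool b).map out.symm)))) ∧
    ∀ c : M.Cfg, TM2.Reaches M.m (initList M ((encStr x).map inp.symm)) c →
      ∀ k, (c.stk k).length ≤ s x.length

/-- The class PSPACE: the languages decided in polynomial space by multi-stack Turing machines
(Mathlib's `FinTM2`) all of whose alphabets are finite. -/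
def PSPACE : Set (Set (List Bool)) :=
  {L | ∃ (M : FinTM2) (inp : M.Γ M.k₀ ≃ Sym) (out : M.Γ M.k₁ ≃ Sym) (p : Polynomial ℕ),
    (∀ k, Finite (M.Γ k)) ∧ DecidesInSpace M inp out L (fun n => p.eval n)}

/-- `L` is PSPACE-hard: every language in PSPACE is polynomial-time many-one reducible to `L`. -/
def PSPACEHard (L : Set (List Bool)) : Prop := ∀ L' ∈ PSPACE, Reduces L' L

/-- `L` is PSPACE-complete. -/
def PSPACEComplete (L : Set (List Bool)) : Prop := L ∈ PSPACE ∧ PSPACEHard L

open Classical in
/-- The adjacency matrix of a graph with the vertices `0, …, N - 1`, written row by row. -/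
noncomputable def adjStr {N : ℕ} (G : SimpleGraph (Fin N)) : List Bool :=
  (List.finRange N).flatMap (fun i => (List.finRange N).map (fun j => decide (G.Adj i j)))

/-- The language ARC-KAYLES: the graphs on which the first player wins, written as adjacency
matrices. -/
def arcKayles : Set (List Bool) :=
  {x | ∃ (N : ℕ) (G : SimpleGraph (Fin N)), x = adjStr G ∧ ArcK.FirstWins G}

/-- The truth of `∃ X_i ∀ Y_i ⋯ ∃ X_{i+k-1} ∀ Y_{i+k-1}, P` for a predicate `P` of assignments;
`X_j` is the variable number `2 j` and `Y_j` the variable number `2 j + 1`. -/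
def QT (P : (ℕ → Bool) → Prop) : ℕ → ℕ → (ℕ → Bool) → Prop
  | 0, _, s => P s
  | k + 1, i, s => ∃ x : Bool, ∀ y : Bool,
      QT P k (i + 1) (update (update s (2 * i) x) (2 * i + 1) y)

theorem qtrueFrom_iff (F : List (List (ℕ × Bool))) : ∀ (k i : ℕ) (s : ℕ → Bool),
    ArcK.QTrueFrom F k i s ↔ QT (ArcK.Sat F) k i s
  | 0, _, _ => Iff.rfl
  | k + 1, i, s => by
    simp only [ArcK.QTrueFrom, QT, qtrueFrom_iff F k]

end PSP
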