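import Pool.Agent.PSP.Rows

/-!
# Machines working in polynomial space as systems of rows of bits
-/

namespace PSP

open Function Turing NPC

section Micro

variable {K : Type} [DecidableEq K] {Γ : K → Type} {Λ σ : Type}

/-- the micro configuration belongs to a run through the configurations in `Rc`, in space `B` -/
def MInv (Rc : TM2.Cfg Γ Λ σ → Prop) (B : ℕ)
    (c : (Option (TM2.Stmt Γ Λ σ) × σ) × (∀ k, List (Γ k))) : Prop :=
  match c.1.1 with
  | none => ∀ k, (c.2 k).length ≤ B
  | some q => Rc (TM2.stepAux q c.1.2 c.2) ∧ ∀ k, (c.2 k).length + npush q ≤ B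

theorem MInv.step (m : Λ → TM2.Stmt Γ Λ σ) {Rc : TM2.Cfg Γ Λ σ → Prop} {p D B : ℕ}
    (hR : ∀ c c', Rc c → c' ∈ TM2.step m c → Rc c')
    (hp : ∀ c, Rc c → ∀ k, (c.stk k).length ≤ p) (hD : ∀ l, npush (m l) ≤ D) (hB : p + D ≤ B)
    (c : (Option (TM2.Stmt Γ Λ σ) × σ) × (∀ k, List (Γ k))) (h : MInv Rc B c) :
    MInv Rc B (rstep m c) := by
  obtain ⟨⟨o, v⟩, S⟩ := c
  rcases o with _ | q
  · exact h
  · obtain ⟨h1, h2⟩ := h
    cases q with
    | push k f q =>
      refine ⟨?_, fun j => ?_⟩
      · have : (rstep m ((some (.push k f q), v), S)).2 = update S k (f v :: S k) :=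
          app_update S k _
        rw [this]
        exact h1
      · have : (rstep m ((some (.push k f q), v), S)).2 = update S k (f v :: S k) :=
          app_update S k _
        rw [this]
        have h3 := h2 j
        simp only [npush] at h3
        by_cases hj : j = k
        · subst hj
          rw [update_self, List.length_cons]
          change _ + 1 + npush q ≤ B
          change (S j).length + _ ≤ B at h3
          omega
        · rw [update_of_ne hj]
          change _ + npush q ≤ B
          change (S j).length + _ ≤ B at h3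
          omega
    | peek k f q => exact ⟨h1, h2⟩
    | pop k f q =>
      have e : (rstep m ((some (.pop k f q), v), S)).2 = update S k (S k).tail :=
        app_update S k _
      refine ⟨?_, fun j => ?_⟩
      · rw [e]
        exact h1
      · rw [e]
        have h3 := h2 j
        simp only [npush] at h3
        change (S j).length + npush q ≤ B at h3
        by_cases hj : j = k
        · subst hj
          rw [update_self, List.length_tail]
          change _ - 1 + npush q ≤ B
          omega
        · rw [update_of_ne hj]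
          exact h3
    | load a q => exact ⟨h1, h2⟩
    | branch f q₁ q₂ =>
      have e : rstep m ((some (.branch f q₁ q₂), v), S) = ((some (cond (f v) q₁ q₂), v), S) := rfl
      rw [e]
      change Rc (TM2.stepAux (.branch f q₁ q₂) v S) at h1
      rw [TM2.stepAux] at h1
      rcases hf : f v with _ | _
      · rw [hf] at h1
        refine ⟨h1, fun j => ?_⟩
        have h3 := h2 j
        simp only [npush] at h3
        change (S j).length + npush q₂ ≤ B
        change (S j).length + _ ≤ B at h3
        omega
      · rw [hf] at h1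
        refine ⟨h1, fun j => ?_⟩
        have h3 := h2 j
        simp only [npush] at h3
        change (S j).length + npush q₁ ≤ B
        change (S j).length + _ ≤ B at h3
        omega
    | goto f =>
      refine ⟨hR _ _ h1 rfl, fun j => ?_⟩
      have h3 := hp _ h1 j
      have h4 := hD (f v)
      change (S j).length ≤ p at h3
      change (S j).length + npush (m (f v)) ≤ B
      omega
    | halt =>
      intro j
      have h3 := h2 j
      change (S j).length + 0 ≤ B at h3
      exact h3

theorem MInv.iterate (m : Λ → TM2.Stmt Γ Λ σ) {Rc : TM2.Cfg Γ Λ σ → Prop} {p D B : ℕ}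
    (hR : ∀ c c', Rc c → c' ∈ TM2.step m c → Rc c')
    (hp : ∀ c, Rc c → ∀ k, (c.stk k).length ≤ p) (hD : ∀ l, npush (m l) ≤ D) (hB : p + D ≤ B)
    (t : ℕ) : ∀ (c : (Option (TM2.Stmt Γ Λ σ) × σ) × (∀ k, List (Γ k))), MInv Rc B c →
      MInv Rc B ((rstep m)^[t] c) := by
  induction t with
  | zero => intro c h; exact h
  | succ t ih =>
    intro c h
    rw [iterate_succ_apply]
    exact ih _ (h.step m hR hp hD hB)

theorem MInv.length_le {Rc : TM2.Cfg Γ Λ σ → Prop} {B : ℕ}
    {c : (Option (TM2.Stmt Γ Λ σ) × σ) × (∀ k, List (Γ k))} (h : MInv Rc B c) (k : K) :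
    (c.2 k).length ≤ B := by
  obtain ⟨⟨o, v⟩, S⟩ := c
  rcases o with _ | q
  · exact h k
  · have := h.2 k
    simp only at this
    change (S k).length ≤ B
    change (S k).length + _ ≤ B at this
    omega

end Micro

theorem forget_injective (tm : FinTM2) : Injective (forget tm) := by
  rintro ⟨⟨⟨q, hq⟩, v⟩, S⟩ ⟨⟨⟨q', hq'⟩, v'⟩, S'⟩ h
  simp only [forget] at h
  obtain ⟨⟨rfl, rfl⟩, rfl⟩ := h
  rfl

/-- Every language in PSPACE is described by the iterates of a fixed finite abstract machine, whose
stacks stay below a polynomial bound. -/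
theorem pspace_mach {L : Set (List Bool)} (hL : L ∈ PSPACE) :
    ∃ (M : Mach) (_ : Finite M.Q) (_ : Finite M.K) (_ : ∀ k, Finite (M.Γ k))
      (_ : DecidableEq M.K) (q0 : M.Q) (k₀ k₁ : M.K) (sy : Sym → M.Γ k₀) (ac : M.Γ k₁)
      (N : Polynomial ℕ), ∀ x : List Bool,
        (∀ t k, ((M.conf q0 k₀ sy (encStr x) t).2 k).length < N.eval x.length) ∧
        ∃ n, (∀ t, M.conf q0 k₀ sy (encStr x) (n + t) = M.conf q0 k₀ sy (encStr x) n) ∧
          (x ∈ L ↔ ct ((M.conf q0 k₀ sy (encStr x) n).2 k₁) 1 = some (some ac)) := by
  obtain ⟨tm, inp, out, p, hfin, h⟩ := hL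
  obtain ⟨D, hD⟩ := exists_npush_bound tm
  obtain ⟨D', hD'⟩ := exists_ssize_bound tm
  let := tm.ΛFin
  let := tm.kFin
  let := tm.σFin
  let : DecidableEq (machOf tm).K := tm.kDecidableEq
  set q0 : (machOf tm).Q := (⟨some (tm.m tm.main), by
    simp only [TM2.stmts, Finset.mem_insertNone, Finset.mem_biUnion, Finset.mem_univ, true_and,
      Option.mem_def, Option.some.injEq, forall_eq']
    exact ⟨tm.main, TM2.stmts₁_self⟩⟩, tm.initialState) with hq0
  refine ⟨machOf tm, ?_, ?_, hfin, inferInstance, q0, tm.k₀, tm.k₁, inp.symm,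
    out.symm (some true), p + Polynomial.C (D + 1), ?_⟩
  · exact inferInstanceAs (Finite ({q : Option (TM2.Stmt tm.Γ tm.Λ tm.σ) //
      q ∈ TM2.stmts tm.m Finset.univ} × tm.σ))
  · exact inferInstanceAs (Finite tm.K)
  · intro x
    obtain ⟨⟨b, hb, ⟨ho⟩⟩, hs⟩ := h x
    have hN : (p + Polynomial.C (D + 1)).eval x.length = p.eval x.length + D + 1 := by
      simp; ring
    rw [hN]
    set c0 := (machOf tm).initc q0 tm.k₀ inp.symm (encStr x) with hc0
    have e0 : forget tm c0 = ((some (tm.m tm.main), tm.initialState),
        update (fun _ => []) tm.k₀ ((encStr x).map inp.symm)) := rfl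
    have hinit : initList tm ((encStr x).map inp.symm) = ⟨some tm.main, tm.initialState,
        update (fun _ => []) tm.k₀ ((encStr x).map inp.symm)⟩ := initList_eq _ _
    refine ⟨?_, ?_⟩
    · intro t k
      have h1 : MInv (fun c : TM2.Cfg tm.Γ tm.Λ tm.σ =>
          TM2.Reaches tm.m (initList tm ((encStr x).map inp.symm)) c) (p.eval x.length + D)
          (forget tm c0) := by
        rw [e0]
        refine ⟨?_, fun j => ?_⟩
        · refine Relation.ReflTransGen.single ?_
          rw [hinit]
          rfl
        · have h2 := hs _ Relation.ReflTransGen.refl j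
          rw [hinit] at h2
          have h3 := hD tm.main
          change ((update (fun _ => []) tm.k₀ ((encStr x).map inp.symm) : ∀ k, List (tm.Γ k))
            j).length ≤ p.eval x.length at h2
          change ((update (fun _ => []) tm.k₀ ((encStr x).map inp.symm) : ∀ k, List (tm.Γ k))
            j).length + npush (tm.m tm.main) ≤ _
          omega
      have h2 := MInv.iterate tm.m (p := p.eval x.length) (D := D)
        (fun c c' hc hc' => Relation.ReflTransGen.tail hc hc') hs hD le_rfl t _ h1
      have h3 := h2.length_le k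
      rw [← forget_iterate] at h3
      exact Nat.lt_succ_of_le h3
    · have h1 := ho.evals_in_steps
      set n := ho.steps with hn
      have s1 : Steps (TM2.step tm.m) n ⟨some tm.main, tm.initialState,
          update (fun _ => []) tm.k₀ ((encStr x).map inp.symm)⟩
          ⟨none, tm.initialState, update (fun _ => []) tm.k₁
            ((encBool b).map out.symm)⟩ := by
        have := h1
        rw [Option.map_some, initList_eq, haltList_eq] at this
        exact this
      obtain ⟨n', -, h2⟩ := rstep_steps tm.m D' hD' n _ _ s1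
      have h3 : ∀ t, forget tm ((machOf tm).step^[n' + t] c0) =
          ((none, tm.initialState), update (fun _ => []) tm.k₁ ((encBool b).map out.symm)) := by
        intro t
        rw [Nat.add_comm, iterate_add_apply, forget_iterate, forget_iterate, e0]
        have h4 : (rstep tm.m)^[n'] ((some (tm.m tm.main), tm.initialState),
              update (fun _ => []) tm.k₀ ((encStr x).map inp.symm)) =
            ((none, tm.initialState), update (fun _ => []) tm.k₁
              ((encBool b).map out.symm)) := h2
        rw [h4]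
        exact rstep_none _ _ _ _
      refine ⟨n', fun t => forget_injective tm ((h3 t).trans (h3 0).symm), ?_⟩
      have h4 : ((machOf tm).conf q0 tm.k₀ inp.symm (encStr x) n').2 tm.k₁ =
          (encBool b).map out.symm := by
        have a1 := congrArg (fun c => c.2 tm.k₁) (h3 0)
        refine Eq.trans a1 ?_
        change update (fun _ => []) tm.k₁ _ tm.k₁ = _
        rw [update_self]
      rw [h4, ← hb]
      constructor
      · intro h
        change some (some (out.symm (some b))) = some (some (out.symm (some true)))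
        rw [h]
      · intro h
        have h5 : some (some (out.symm (some b))) = some (some (out.symm (some true))) := h
        have h6 := out.symm.injective (Option.some.inj (Option.some.inj h5))
        exact Option.some.inj h6

/-- the class of the position `i` of the initial row -/
def icl (n1 : ℕ) (y : List Bool) (i : ℕ) : Cl :=
  if i < 1 then .c00 else if i < n1 then (if y[i]? = some true then .r1 else .r0) else .rblank

section System

variable {w : ℕ} (al : Cl → (Fin w → Bool) → Prop)
  (Wd : (Fin w → Bool) → (Fin w → Bool) → (Fin w → Bool) → (Fin w → Bool) → Prop)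

/-- the vector describes the initial row -/
def Ini (n1 N : ℕ) (y : List Bool) (a : Fin ((N + 2) * w) → Bool) : Prop :=
  ∀ i < N + 2, al (icl n1 y i) (cellv w a i)

/-- the vector describes an accepting row -/
def Acc (N : ℕ) (b : Fin ((N + 2) * w) → Bool) : Prop := al .acc (cellv w b 1)

/-- the relation between consecutive rows -/
def Rel (N : ℕ) (a b : Fin ((N + 2) * w) → Bool) : Prop :=
  (al .cL (cellv w a 0) ∧ al .cR (cellv w a N) ∧ al .cR (cellv w a (N + 1))) ∧
  (al .cL (cellv w b 0) ∧ al .cR (cellv w b N) ∧ al .cR (cellv w b (N + 1))) ∧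
  ∀ i < N, Wd (cellv w a i) (cellv w a (i + 1)) (cellv w a (i + 2)) (cellv w b (i + 1))

end System

theorem Mach.conf_add (M : Mach) [DecidableEq M.K] (q0 : M.Q) (k₀ : M.K) (sy : Sym → M.Γ k₀)
    (s : List Sym) (t n : ℕ) : M.conf q0 k₀ sy s (t + n) = M.step^[n] (M.conf q0 k₀ sy s t) := by
  unfold NPC.Mach.conf
  rw [Nat.add_comm, iterate_add_apply]

theorem ct_encStr {A : Type} (sy : Sym → A) (x : List Bool) (i : ℕ) :
    ct ((encStr x).map sy) (i + 1) = (x.reverse[i]?).map (fun b => some (sy (some b))) := by
  rw [ct_succ, ← List.map_reverse, encStr, ← List.map_reverse, List.getElem?_map,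
    List.getElem?_map, Option.map_map, Option.map_map]
  rfl

/-- Every language in PSPACE is described by a system of rows of bits. -/
theorem pspace_rows {L : Set (List Bool)} (hL : L ∈ PSPACE) :
    ∃ (w : ℕ) (al : Cl → (Fin w → Bool) → Prop)
      (Wd : (Fin w → Bool) → (Fin w → Bool) → (Fin w → Bool) → (Fin w → Bool) → Prop)
      (P : Polynomial ℕ), 0 < w ∧ ∀ x : List Bool,
        (x ∈ L ↔ ∃ a b, Ini al (x.length + 1) (P.eval x.length) (false :: x.reverse) a ∧
          Acc al (P.eval x.length) b ∧
          Pow2 (Rel al Wd (P.eval x.length)) ((P.eval x.length + 2) * w) a b) := by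
  classical
  obtain ⟨M, hQ, hK, hΓ, hdec, q0, k₀, k₁, sy, ac, P, h⟩ := pspace_mach hL
  have := hQ
  have := hK
  have := hΓ
  have : Finite M.Cell := inferInstance
  -- binary codes of the cells
  obtain ⟨w, hw, en, hen⟩ : ∃ w : ℕ, 0 < w ∧ ∃ en : M.Cell → (Fin w → Bool), Injective en := by
    have := Fintype.ofFinite M.Cell
    refine ⟨Fintype.card M.Cell + 1, by omega, ?_⟩
    have hc : Fintype.card M.Cell ≤ Fintype.card (Fin (Fintype.card M.Cell + 1) → Bool) := by
      rw [Fintype.card_fun, Fintype.card_bool, Fintype.card_fin]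
      exact (Nat.lt_two_pow_self).le.trans (Nat.pow_le_pow_right (by omega) (by omega))
    obtain ⟨e⟩ := Function.Embedding.nonempty_of_card_le hc
    exact ⟨e, e.injective⟩
  let dflt : M.Cell := ((q0, fun _ => none), fun _ => none)
  obtain ⟨dec, hdc⟩ : ∃ dec : (Fin w → Bool) → M.Cell, ∀ c, dec (en c) = c := by
    have : Nonempty M.Cell := ⟨dflt⟩
    exact ⟨invFun en, leftInverse_invFun hen⟩
  refine ⟨w, fun c v => M.allow q0 k₀ k₁ sy ac c (dec v),
    fun a b c d => M.W (dec a) (dec b) (dec c) (dec d), P, hw, ?_⟩
  intro x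
  obtain ⟨hlt, n, hn, hx⟩ := h x
  set N := P.eval x.length with hNdef
  have hN : 0 < N := by have := hlt 0 k₀; omega
  set W := (N + 2) * w with hW
  -- rows of vectors
  let rw_ : (Fin W → Bool) → ℕ → M.Cell := fun a i => dec (cellv w a i)
  have hvec : ∀ (r : ℕ → M.Cell), ∀ i < N + 2, rw_ (vecOf en W r) i = r i := by
    intro r i hi
    simp only [rw_]
    rw [hW, cellv_vecOf en N r hi, hdc]
  have hrel : ∀ a b : Fin W → Bool,
      Rel (fun c v => M.allow q0 k₀ k₁ sy ac c (dec v))
        (fun a b c d => M.W (dec a) (dec b) (dec c) (dec d)) N a b ↔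
      RowRel M N (rw_ a) (rw_ b) := fun a b => Iff.rfl
  -- the run
  set cf : ℕ → M.Cf := fun t => M.conf q0 k₀ sy (encStr x) t with hcf
  have hcf1 : ∀ t, cf (t + 1) = M.step (cf t) := fun t => M.conf_succ q0 k₀ sy _ t
  have hH : ∀ t k, ((cf t).2 k).length < N := hlt
  have hlast : cf (2 ^ W) = cf n := by
    have h0 : ∀ t, M.step^[t] (cf 0) = cf t := fun t => rfl
    have := orbit_const M.step (cf 0) (cf n) n (fun t => by rw [h0]; exact hn t) W
      (fun c => vecOf en W (rowOf M c)) (fun s t hst => by
        rw [h0, h0] at hst ⊢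
        refine rowOf_inj M (hH s) (hH t) fun i hi => ?_
        have h1 := hvec (rowOf M (cf s)) i hi
        have h2 := hvec (rowOf M (cf t)) i hi
        rw [← h1, ← h2, hst])
    rw [h0] at this
    exact this
  -- paths of rows
  have hfor : ∀ (k t : ℕ) (a b : Fin W → Bool), Sh M N (cf t) (rw_ a) →
      Pow2 (Rel (fun c v => M.allow q0 k₀ k₁ sy ac c (dec v))
        (fun a b c d => M.W (dec a) (dec b) (dec c) (dec d)) N) k a b →
      Sh M N (cf (t + 2 ^ k)) (rw_ b) := by
    intro k
    induction k with
    | zero =>
      intro t a b h1 h2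
      rw [pow_zero, hcf1]
      exact h1.step M hN (hH t) (by rw [← hcf1]; exact hH (t + 1)) ((hrel a b).1 h2)
    | succ k ih =>
      rintro t a b h1 ⟨m, h2, h3⟩
      have h4 := ih (t + 2 ^ k) m b (ih t a m h1 h2) h3
      rw [show t + 2 ^ (k + 1) = t + 2 ^ k + 2 ^ k by ring]
      exact h4
  have hback : ∀ (k t : ℕ), Pow2 (Rel (fun c v => M.allow q0 k₀ k₁ sy ac c (dec v))
        (fun a b c d => M.W (dec a) (dec b) (dec c) (dec d)) N) k
        (vecOf en W (rowOf M (cf t))) (vecOf en W (rowOf M (cf (t + 2 ^ k)))) := by
    intro k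
    induction k with
    | zero =>
      intro t
      change Rel _ _ N _ _
      rw [hrel, pow_zero, hcf1]
      exact (RowRel.congr M (hvec _) (hvec _)).2
        (rowRel_step M (hH t) (by rw [← hcf1]; exact hH (t + 1)))
    | succ k ih =>
      intro t
      refine ⟨_, ih t, ?_⟩
      rw [show t + 2 ^ (k + 1) = t + 2 ^ k + 2 ^ k by ring]
      exact ih (t + 2 ^ k)
  have hk0 : ∀ k, (cf 0).2 k = update (fun _ => []) k₀ ((encStr x).map sy) k := fun k => rfl
  have hk0' : (cf 0).2 k₀ = (encStr x).map sy := by rw [hk0, update_self]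
  have hk1' : ∀ k, k ≠ k₀ → (cf 0).2 k = [] := fun k hk => by rw [hk0, update_of_ne hk]
  have hxl : x.length < N := by
    have := hH 0 k₀
    rw [hk0'] at this
    simpa [encStr] using this
  have hget : ∀ i, i < x.length → (false :: x.reverse)[i + 1]? = x.reverse[i]? := fun i _ => by
    rw [List.getElem?_cons_succ]
  rw [hx]
  constructor
  · intro hacc
    refine ⟨vecOf en W (rowOf M (cf 0)), vecOf en W (rowOf M (cf (2 ^ W))), ?_, ?_, ?_⟩
    · intro i hi
      change M.allow q0 k₀ k₁ sy ac _ (rw_ (vecOf en W (rowOf M (cf 0))) i)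
      rw [hvec _ i hi]
      unfold icl
      by_cases h1 : i < 1
      · rw [if_pos h1]
        obtain rfl : i = 0 := by omega
        exact ⟨rfl, fun k => ct_zero _⟩
      · rw [if_neg h1]
        obtain ⟨i, rfl⟩ : ∃ j, i = j + 1 := ⟨i - 1, by omega⟩
        have hI : M.Init q0 k₀ (rowOf M (cf 0) (i + 1)) := by
          refine ⟨rfl, fun k hk => ?_⟩
          change ct ((cf 0).2 k) (i + 1) = none
          rw [hk1' k hk, ct_eq_none]
          simp
        by_cases h2 : i + 1 < x.length + 1
        · rw [if_pos h2, hget i (by omega)]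
          have h3 : ct ((cf 0).2 k₀) (i + 1) = (x.reverse[i]?).map (fun b => some (sy (some b))) := by
            rw [hk0', ct_encStr]
          have h4 : ∃ b, x.reverse[i]? = some b :=
            ⟨_, List.getElem?_eq_getElem (by simpa using by omega)⟩
          obtain ⟨b, hb⟩ := h4
          rw [hb] at h3 ⊢
          rcases b with _ | _
          · rw [if_neg (by simp)]
            exact ⟨hI, h3⟩
          · rw [if_pos rfl]
            exact ⟨hI, h3⟩
        · rw [if_neg h2]
          refine ⟨hI, ?_⟩
          change ct ((cf 0).2 k₀) (i + 1) = none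
          rw [hk0', ct_encStr, List.getElem?_eq_none (by simp; omega)]
          rfl
    · change M.allow q0 k₀ k₁ sy ac .acc (rw_ (vecOf en W (rowOf M (cf (2 ^ W)))) 1)
      rw [hvec _ 1 (by omega), hlast]
      exact hacc
    · have := hback W 0
      rw [Nat.zero_add] at this
      exact this
  · rintro ⟨a, b, h1, h2, h3⟩
    have hc : ∀ i < N + 2, M.allow q0 k₀ k₁ sy ac
        (icl (x.length + 1) (false :: x.reverse) i) (rw_ a i) := h1
    have hI : ∀ i, i + 1 < N + 2 → M.Init q0 k₀ (rw_ a (i + 1)) := by
      intro i hi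
      have := hc (i + 1) hi
      unfold icl at this
      rw [if_neg (by omega)] at this
      split_ifs at this <;> exact this.1
    have hS : Sh M N (cf 0) (rw_ a) := by
      refine ⟨(hI 0 (by omega)).1, fun i hi k => ?_⟩
      rcases i with _ | i
      · rw [ct_zero]
        have := hc 0 (by omega)
        unfold icl at this
        rw [if_pos (by omega)] at this
        exact this.2 k
      · by_cases hk : k = k₀
        · subst hk
          rw [hk0', ct_encStr]
          have h4 := hc (i + 1) hi
          unfold icl at h4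
          rw [if_neg (by omega)] at h4
          by_cases h5 : i + 1 < x.length + 1
          · rw [if_pos h5, hget i (by omega)] at h4
            obtain ⟨b, hb⟩ : ∃ b, x.reverse[i]? = some b :=
              ⟨_, List.getElem?_eq_getElem (by simpa using by omega)⟩
            rw [hb] at h4 ⊢
            rcases b with _ | _
            · rw [if_neg (by simp)] at h4
              exact h4.2
            · rw [if_pos rfl] at h4
              exact h4.2
          · rw [if_neg h5] at h4
            rw [List.getElem?_eq_none (by simp; omega)]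
            exact h4.2
        · rw [hk1' k hk]
          have h1 : ct ([] : List (M.Γ k)) (i + 1) = none := by rw [ct_eq_none]; simp
          rw [h1]
          exact (hI i hi).2 k hk
    have h4 := hfor W 0 a b hS h3
    rw [Nat.zero_add] at h4
    have h5 := h4.2 1 (by omega) k₁
    have h6 : (rw_ b 1).2 k₁ = some (some ac) := h2
    rw [h6, hlast] at h5
    exact h5.symm

end PSP
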