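import Pool.Agent.PSP.Machine
import Pool.Agent.PolyTime.ThreeSat

/-!
# Quantified Boolean formulas are PSPACE-hard
-/

namespace PSP

open Function Turing NPC FP

/-! ### Clauses -/

open Classical in
/-- clauses expressing the predicate `P` of the variables `0, …, m - 1` -/
noncomputable def bad (m : ℕ) (P : (Fin m → Bool) → Prop) : List (List (ℕ × Bool)) :=
  ((Finset.univ : Finset (Fin m → Bool)).filter (fun u => ¬ P u)).toList.map
    (fun u => (List.finRange m).map (fun j => (j.1, !u j)))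

theorem mem_bad {m : ℕ} {P : (Fin m → Bool) → Prop} {C : List (ℕ × Bool)} :
    C ∈ bad m P ↔ ∃ u, ¬ P u ∧ (List.finRange m).map (fun j => (j.1, !u j)) = C := by
  simp [bad]

/-- renaming of the variables -/
def ren (g : ℕ → ℕ) (F : List (List (ℕ × Bool))) : List (List (ℕ × Bool)) :=
  F.map (fun C => C.map (fun p => (g p.1, p.2)))

theorem sat_ren_bad (g : ℕ → ℕ) {m : ℕ} (P : (Fin m → Bool) → Prop) (s : ℕ → Bool) :
    ArcK.Sat (ren g (bad m P)) s ↔ P (fun j => s (g j)) := by
  constructor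
  · intro h
    by_contra hcon
    obtain ⟨l, hl, hl2⟩ := h (((List.finRange m).map
      (fun j : Fin m => (j.1, !(s (g j.1))))).map (fun p => (g p.1, p.2)))
      (List.mem_map.2 ⟨_, mem_bad.2 ⟨_, hcon, rfl⟩, rfl⟩)
    rw [List.map_map, List.mem_map] at hl
    obtain ⟨j, -, rfl⟩ := hl
    simp at hl2
  · intro h C hC
    rw [ren, List.mem_map] at hC
    obtain ⟨C', hC', rfl⟩ := hC
    obtain ⟨u, hu, rfl⟩ := mem_bad.1 hC'
    have hne : u ≠ fun j : Fin m => s (g j.1) := fun h' => hu (h' ▸ h)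
    obtain ⟨j, hj⟩ := Function.ne_iff.1 hne
    refine ⟨(g j, !u j), ?_, ?_⟩
    · rw [List.map_map, List.mem_map]
      exact ⟨j, List.mem_finRange j, rfl⟩
    · simp only
      cases h1 : s (g j.1) <;> cases h2 : u j <;> simp_all

theorem sat_append {F G : List (List (ℕ × Bool))} {s : ℕ → Bool} :
    ArcK.Sat (F ++ G) s ↔ ArcK.Sat F s ∧ ArcK.Sat G s := by
  unfold ArcK.Sat
  simp only [List.mem_append, or_imp, forall_and]

theorem sat_flatMap {α : Type} {l : List α} {f : α → List (List (ℕ × Bool))} {s : ℕ → Bool} :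
    ArcK.Sat (l.flatMap f) s ↔ ∀ a ∈ l, ArcK.Sat (f a) s := by
  unfold ArcK.Sat
  simp only [List.mem_flatMap, forall_exists_index, and_imp]
  exact ⟨fun h a ha C hC => h C a ha hC, fun h C a ha hC => h a ha C hC⟩

/-- clauses saying that `p = q` if the value of `v` is `b` -/
def eqc (v : ℕ) (b : Bool) (p q : ℕ) : List (List (ℕ × Bool)) :=
  [[(v, !b), (p, true), (q, false)], [(v, !b), (p, false), (q, true)]]

theorem sat_eqc {v : ℕ} {b : Bool} {p q : ℕ} {s : ℕ → Bool} :
    ArcK.Sat (eqc v b p q) s ↔ (s v = b → s p = s q) := by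
  simp only [ArcK.Sat, eqc, List.mem_cons, List.not_mem_nil, or_false, forall_eq_or_imp,
    forall_eq, exists_eq_or_imp, exists_eq_left]
  cases s v <;> cases b <;> cases s p <;> cases s q <;> simp

/-! ### The formula -/

/-- clauses linking the blocks `l` and `l + 1` -/
def linkc (W l j : ℕ) : List (List (ℕ × Bool)) :=
  eqc (selv W l) true (2 * ((l + 1) * (3 * W) + j)) (2 * (l * (3 * W) + j)) ++
  (eqc (selv W l) true (2 * ((l + 1) * (3 * W) + (W + j))) (2 * (l * (3 * W) + (2 * W + j))) ++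
  (eqc (selv W l) false (2 * ((l + 1) * (3 * W) + j)) (2 * (l * (3 * W) + (2 * W + j))) ++
  eqc (selv W l) false (2 * ((l + 1) * (3 * W) + (W + j))) (2 * (l * (3 * W) + (W + j)))))

/-- the clauses for the last relation -/
def relc (w : ℕ) (bL bR bw : List (List (ℕ × Bool))) (N W A : ℕ) : List (List (ℕ × Bool)) :=
  ren (fun p => 2 * (A + (0 * w + p))) bL ++ (ren (fun p => 2 * (A + (N * w + p))) bR ++
  (ren (fun p => 2 * (A + ((N + 1) * w + p))) bR ++
  (ren (fun p => 2 * (A + (W + (0 * w + p)))) bL ++ (ren (fun p => 2 * (A + (W + (N * w + p)))) bR ++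
  (ren (fun p => 2 * (A + (W + ((N + 1) * w + p)))) bR ++
  (List.range N).flatMap (fun i => ren (fun p => if p < 3 * w then 2 * (A + (i * w + p))
    else 2 * (A + (W + ((i + 1) * w + (p - 3 * w))))) bw))))))

/-- The matrix of the formula. -/
def fml (w : ℕ) (bd : Cl → List (List (ℕ × Bool))) (bw : List (List (ℕ × Bool))) (N n1 : ℕ)
    (y : List Bool) (W : ℕ) : List (List (ℕ × Bool)) :=
  (List.range (N + 2)).flatMap (fun i => ren (fun p => 2 * (0 * (3 * W) + (i * w + p)))
    (bd (icl n1 y i))) ++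
  (ren (fun p => 2 * (0 * (3 * W) + (W + (1 * w + p)))) (bd .acc) ++
  ((List.range W).flatMap (fun l => (List.range W).flatMap (fun j => linkc W l j)) ++
  relc w (bd .cL) (bd .cR) bw N W (W * (3 * W))))

theorem cell_lt {w N i p : ℕ} (hi : i < N + 2) (hp : p < w) : i * w + p < (N + 2) * w := by
  calc i * w + p < i * w + w := by omega
    _ = (i + 1) * w := by ring
    _ ≤ (N + 2) * w := Nat.mul_le_mul_right _ hi

theorem cellv_va {w N i : ℕ} (hi : i < N + 2) (l : ℕ) (s : ℕ → Bool) :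
    cellv w (va ((N + 2) * w) l s) i =
      fun j : Fin w => s (2 * (l * (3 * ((N + 2) * w)) + (i * w + j))) := by
  funext j
  simp only [cellv, ext0]
  rw [dif_pos (cell_lt hi j.2)]
  rfl

theorem cellv_vb {w N i : ℕ} (hi : i < N + 2) (l : ℕ) (s : ℕ → Bool) :
    cellv w (vb ((N + 2) * w) l s) i =
      fun j : Fin w => s (2 * (l * (3 * ((N + 2) * w)) + ((N + 2) * w + (i * w + j)))) := by
  funext j
  simp only [cellv, ext0]
  rw [dif_pos (cell_lt hi j.2)]
  rfl

/-- the window predicate on `4 w` bits -/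
def win4 {w : ℕ}
    (Wd : (Fin w → Bool) → (Fin w → Bool) → (Fin w → Bool) → (Fin w → Bool) → Prop)
    (u : Fin (4 * w) → Bool) : Prop :=
  Wd (fun j => u ⟨j, by omega⟩) (fun j => u ⟨w + j, by omega⟩) (fun j => u ⟨2 * w + j, by omega⟩)
    (fun j => u ⟨3 * w + j, by omega⟩)

theorem sat_linkc (W : ℕ) (l : ℕ) (s : ℕ → Bool) :
    (∀ j < W, ArcK.Sat (linkc W l j) s) ↔
      (s (selv W l) = true → va W (l + 1) s = va W l s ∧ vb W (l + 1) s = vm W l s) ∧
      (s (selv W l) = false → va W (l + 1) s = vm W l s ∧ vb W (l + 1) s = vb W l s) := by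
  simp only [linkc, sat_append, sat_eqc]
  constructor
  · intro h
    refine ⟨fun h1 => ⟨?_, ?_⟩, fun h1 => ⟨?_, ?_⟩⟩
    · funext j; exact (h j j.2).1 h1
    · funext j; exact (h j j.2).2.1 h1
    · funext j; exact (h j j.2).2.2.1 h1
    · funext j; exact (h j j.2).2.2.2 h1
  · rintro ⟨h1, h2⟩ j hj
    exact ⟨fun h => congrFun (h1 h).1 ⟨j, hj⟩, fun h => congrFun (h1 h).2 ⟨j, hj⟩,
      fun h => congrFun (h2 h).1 ⟨j, hj⟩, fun h => congrFun (h2 h).2 ⟨j, hj⟩⟩

theorem sat_fml {w : ℕ} (al : Cl → (Fin w → Bool) → Prop)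
    (Wd : (Fin w → Bool) → (Fin w → Bool) → (Fin w → Bool) → (Fin w → Bool) → Prop)
    (N n1 : ℕ) (y : List Bool) (s : ℕ → Bool) :
    ArcK.Sat (fml w (fun c => bad w (al c)) (bad (4 * w) (win4 Wd)) N n1 y ((N + 2) * w)) s ↔
      Mat ((N + 2) * w) (Ini al n1 N y) (Acc al N) ((N + 2) * w) (Rel al Wd N) s := by
  have hwin : ∀ i < N, (win4 Wd (fun j : Fin (4 * w) => s (if j.1 < 3 * w then
      2 * ((N + 2) * w * (3 * ((N + 2) * w)) + (i * w + j.1))
      else 2 * ((N + 2) * w * (3 * ((N + 2) * w)) +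
        ((N + 2) * w + ((i + 1) * w + (j.1 - 3 * w)))))) ↔
      Wd (cellv w (va ((N + 2) * w) ((N + 2) * w) s) i)
        (cellv w (va ((N + 2) * w) ((N + 2) * w) s) (i + 1))
        (cellv w (va ((N + 2) * w) ((N + 2) * w) s) (i + 2))
        (cellv w (vb ((N + 2) * w) ((N + 2) * w) s) (i + 1))) := by
    intro i hi
    rw [cellv_va (by omega), cellv_va (by omega), cellv_va (by omega), cellv_vb (by omega)]
    unfold win4
    have e1 : (fun j : Fin w => s (if (j : ℕ) < 3 * w then
        2 * ((N + 2) * w * (3 * ((N + 2) * w)) + (i * w + j))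
        else 2 * ((N + 2) * w * (3 * ((N + 2) * w)) +
        ((N + 2) * w + ((i + 1) * w + (j - 3 * w)))))) =
        fun j : Fin w => s (2 * ((N + 2) * w * (3 * ((N + 2) * w)) + (i * w + j))) := by
      funext j
      rw [if_pos (by omega)]
    have e2 : (fun j : Fin w => s (if w + (j : ℕ) < 3 * w then
        2 * ((N + 2) * w * (3 * ((N + 2) * w)) + (i * w + (w + j)))
        else 2 * ((N + 2) * w * (3 * ((N + 2) * w)) +
        ((N + 2) * w + ((i + 1) * w + (w + j - 3 * w)))))) =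
        fun j : Fin w => s (2 * ((N + 2) * w * (3 * ((N + 2) * w)) + ((i + 1) * w + j))) := by
      funext j
      rw [if_pos (by omega)]
      congr 3
      ring
    have e3 : (fun j : Fin w => s (if 2 * w + (j : ℕ) < 3 * w then
        2 * ((N + 2) * w * (3 * ((N + 2) * w)) + (i * w + (2 * w + j)))
        else 2 * ((N + 2) * w * (3 * ((N + 2) * w)) +
        ((N + 2) * w + ((i + 1) * w + (2 * w + j - 3 * w)))))) =
        fun j : Fin w => s (2 * ((N + 2) * w * (3 * ((N + 2) * w)) + ((i + 2) * w + j))) := by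
      funext j
      rw [if_pos (by omega)]
      congr 3
      ring
    have e4 : (fun j : Fin w => s (if 3 * w + (j : ℕ) < 3 * w then
        2 * ((N + 2) * w * (3 * ((N + 2) * w)) + (i * w + (3 * w + j)))
        else 2 * ((N + 2) * w * (3 * ((N + 2) * w)) +
        ((N + 2) * w + ((i + 1) * w + (3 * w + j - 3 * w)))))) =
        fun j : Fin w => s (2 * ((N + 2) * w * (3 * ((N + 2) * w)) +
          ((N + 2) * w + ((i + 1) * w + j)))) := by
      funext j
      rw [if_neg (by omega), Nat.add_sub_cancel_left]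
    simp only [e1, e2, e3, e4]
  unfold fml relc
  simp only [sat_append, sat_flatMap, List.mem_range, sat_ren_bad, sat_linkc]
  unfold Mat Rel
  rw [cellv_va (by omega), cellv_va (by omega), cellv_va (by omega), cellv_vb (by omega),
    cellv_vb (by omega), cellv_vb (by omega)]
  have hI : (∀ i < N + 2, al (icl n1 y i) (fun j : Fin w =>
      s (2 * (0 * (3 * ((N + 2) * w)) + (i * w + j))))) ↔
      Ini al n1 N y (va ((N + 2) * w) 0 s) := by
    unfold Ini
    refine forall_congr' fun i => forall_congr' fun hi => ?_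
    rw [cellv_va hi]
  have hA : al .acc (fun j : Fin w =>
      s (2 * (0 * (3 * ((N + 2) * w)) + ((N + 2) * w + (1 * w + j))))) ↔
      Acc al N (vb ((N + 2) * w) 0 s) := by
    unfold Acc
    rw [cellv_vb (by omega)]
  rw [hI, hA]
  have hC : (∀ l < (N + 2) * w + 1, Cn ((N + 2) * w) (Ini al n1 N y) (Acc al N) l s
      (va ((N + 2) * w) l s) (vb ((N + 2) * w) l s)) ↔
      (Ini al n1 N y (va ((N + 2) * w) 0 s) ∧ Acc al N (vb ((N + 2) * w) 0 s)) ∧
      ∀ l < (N + 2) * w, (s (selv ((N + 2) * w) l) = true →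
        va ((N + 2) * w) (l + 1) s = va ((N + 2) * w) l s ∧
        vb ((N + 2) * w) (l + 1) s = vm ((N + 2) * w) l s) ∧
      (s (selv ((N + 2) * w) l) = false →
        va ((N + 2) * w) (l + 1) s = vm ((N + 2) * w) l s ∧
        vb ((N + 2) * w) (l + 1) s = vb ((N + 2) * w) l s) := by
    constructor
    · intro h
      exact ⟨h 0 (by omega), fun l hl => h (l + 1) (by omega)⟩
    · rintro ⟨h1, h2⟩ l hl
      rcases l with _ | l
      · exact h1
      · exact h2 l (by omega)
  rw [hC]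
  constructor
  · rintro ⟨h1, h2, h3, h4, h5, h6, h7, h8, h9, h10⟩
    exact ⟨⟨⟨h1, h2⟩, h3⟩, ⟨h4, h5, h6⟩, ⟨h7, h8, h9⟩, fun i hi => (hwin i hi).1 (h10 i hi)⟩
  · rintro ⟨⟨⟨h1, h2⟩, h3⟩, ⟨h4, h5, h6⟩, ⟨h7, h8, h9⟩, h10⟩
    exact ⟨h1, h2, h3, h4, h5, h6, h7, h8, h9, fun i hi => (hwin i hi).2 (h10 i hi)⟩

/-! ### Bounds of the variables -/

/-- all variables are `< b` -/
def VLt (b : ℕ) (F : List (List (ℕ × Bool))) : Prop := ∀ C ∈ F, ∀ l ∈ C, l.1 < b

theorem vlt_append {b : ℕ} {F G : List (List (ℕ × Bool))} (hF : VLt b F) (hG : VLt b G) :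
    VLt b (F ++ G) := by
  intro C hC
  rcases List.mem_append.1 hC with h | h
  · exact hF C h
  · exact hG C h

theorem vlt_flatMap {b : ℕ} {α : Type} {l : List α} {f : α → List (List (ℕ × Bool))}
    (h : ∀ a ∈ l, VLt b (f a)) : VLt b (l.flatMap f) := by
  intro C hC
  obtain ⟨a, ha, hC⟩ := List.mem_flatMap.1 hC
  exact h a ha C hC

theorem vlt_ren_bad {b m : ℕ} {P : (Fin m → Bool) → Prop} {g : ℕ → ℕ} (h : ∀ p < m, g p < b) :
    VLt b (ren g (bad m P)) := by
  intro C hC l hl
  rw [ren, List.mem_map] at hC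
  obtain ⟨C', hC', rfl⟩ := hC
  obtain ⟨u, hu, rfl⟩ := mem_bad.1 hC'
  rw [List.map_map, List.mem_map] at hl
  obtain ⟨j, -, rfl⟩ := hl
  exact h j j.2

theorem vlt_eqc {b v p q : ℕ} {c : Bool} (hv : v < b) (hp : p < b) (hq : q < b) :
    VLt b (eqc v c p q) := by
  intro C hC l hl
  simp only [eqc, List.mem_cons, List.not_mem_nil, or_false] at hC
  rcases hC with rfl | rfl <;> simp only [List.mem_cons, List.not_mem_nil, or_false] at hl <;>
    rcases hl with rfl | rfl | rfl <;> assumption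

theorem block_lt {W l j : ℕ} (hl : l ≤ W) (hj : j < 3 * W) :
    2 * (l * (3 * W) + j) < 2 * ((W + 1) * (3 * W)) := by
  have : (l + 1) * (3 * W) ≤ (W + 1) * (3 * W) := Nat.mul_le_mul_right _ (by omega)
  have e : (l + 1) * (3 * W) = l * (3 * W) + 3 * W := by ring
  omega

theorem vlt_fml {w : ℕ} (al : Cl → (Fin w → Bool) → Prop)
    (Wd : (Fin w → Bool) → (Fin w → Bool) → (Fin w → Bool) → (Fin w → Bool) → Prop)
    (N n1 : ℕ) (y : List Bool) (hw : 0 < w) :
    VLt (2 * (((N + 2) * w + 1) * (3 * ((N + 2) * w))))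
      (fml w (fun c => bad w (al c)) (bad (4 * w) (win4 Wd)) N n1 y ((N + 2) * w)) := by
  have hW : 0 < (N + 2) * w := Nat.mul_pos (by omega) hw
  have hva : ∀ l ≤ (N + 2) * w, ∀ i < N + 2, ∀ p < w,
      2 * (l * (3 * ((N + 2) * w)) + (i * w + p)) <
        2 * (((N + 2) * w + 1) * (3 * ((N + 2) * w))) := by
    intro l hl i hi p hp
    have := cell_lt hi hp
    exact block_lt hl (by omega)
  have hvb : ∀ l ≤ (N + 2) * w, ∀ i < N + 2, ∀ p < w,
      2 * (l * (3 * ((N + 2) * w)) + ((N + 2) * w + (i * w + p))) <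
        2 * (((N + 2) * w + 1) * (3 * ((N + 2) * w))) := by
    intro l hl i hi p hp
    have := cell_lt hi hp
    exact block_lt hl (by omega)
  unfold fml relc
  refine vlt_append (vlt_flatMap fun i hi => vlt_ren_bad fun p hp => ?_)
    (vlt_append (vlt_ren_bad fun p hp => ?_) (vlt_append (vlt_flatMap fun l hl =>
      vlt_flatMap fun j hj => ?_) (vlt_append (vlt_ren_bad fun p hp => ?_)
      (vlt_append (vlt_ren_bad fun p hp => ?_) (vlt_append (vlt_ren_bad fun p hp => ?_)
      (vlt_append (vlt_ren_bad fun p hp => ?_) (vlt_append (vlt_ren_bad fun p hp => ?_)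
      (vlt_append (vlt_ren_bad fun p hp => ?_) (vlt_flatMap fun i hi =>
        vlt_ren_bad fun p hp => ?_)))))))))
  · exact hva 0 (by omega) i (List.mem_range.1 hi) p hp
  · exact hvb 0 (by omega) 1 (by omega) p hp
  · rw [List.mem_range] at hl hj
    have hs : selv ((N + 2) * w) l < 2 * (((N + 2) * w + 1) * (3 * ((N + 2) * w))) :=
      selv_lt hW (by omega)
    have h1 := block_lt (W := (N + 2) * w) (l := l + 1) (j := j) (by omega) (by omega)
    have h2 := block_lt (W := (N + 2) * w) (l := l) (j := j) (by omega) (by omega)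
    have h3 := block_lt (W := (N + 2) * w) (l := l + 1) (j := (N + 2) * w + j) (by omega)
      (by omega)
    have h4 := block_lt (W := (N + 2) * w) (l := l) (j := (N + 2) * w + j) (by omega) (by omega)
    have h5 := block_lt (W := (N + 2) * w) (l := l) (j := 2 * ((N + 2) * w) + j) (by omega)
      (by omega)
    unfold linkc
    exact vlt_append (vlt_eqc hs h1 h2) (vlt_append (vlt_eqc hs h3 h5)
      (vlt_append (vlt_eqc hs h1 h5) (vlt_eqc hs h3 h4)))
  · exact hva _ le_rfl 0 (by omega) p hp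
  · exact hva _ le_rfl N (by omega) p hp
  · exact hva _ le_rfl (N + 1) (by omega) p hp
  · exact hvb _ le_rfl 0 (by omega) p hp
  · exact hvb _ le_rfl N (by omega) p hp
  · exact hvb _ le_rfl (N + 1) (by omega) p hp
  · rw [List.mem_range] at hi
    split_ifs with h
    · have h1 : i * w + p < (N + 2) * w := by
        calc i * w + p < i * w + 3 * w := by omega
          _ = (i + 3) * w := by ring
          _ ≤ (N + 2) * w := Nat.mul_le_mul_right _ (by omega)
      exact block_lt le_rfl (by omega)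
    · exact hvb _ le_rfl (i + 1) (by omega) (p - 3 * w) (by omega)

/-! ### The formula is computed in polynomial time -/

theorem poly_icl {α : Type} [Code α] {n1 i : α → ℕ} {y : α → List Bool} (h1 : Poly n1)
    (hy : Poly y) (hi : Poly i) : Poly (fun a => PSP.icl (n1 a) (y a) (i a)) := by
  unfold PSP.icl
  fun_prop

theorem poly_ren {α : Type} [Code α] {g : α → ℕ → ℕ} {F : α → List (List (ℕ × Bool))}
    (hg : Poly (fun p : α × ℕ => g p.1 p.2)) (hF : Poly F) :
    Poly (fun a => PSP.ren (g a) (F a)) := by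
  unfold PSP.ren
  refine FP.Poly.map (g := fun a (C : List (ℕ × Bool)) => C.map (fun p : ℕ × Bool => (g a p.1, p.2))) hF ?_
  refine FP.Poly.map (f := fun q : α × List (ℕ × Bool) => q.2)
    (g := fun (q : α × List (ℕ × Bool)) (p : ℕ × Bool) => (g q.1 p.1, p.2)) (by fun_prop) ?_
  have h1 : Poly (fun q : (α × List (ℕ × Bool)) × (ℕ × Bool) => g q.1.1 q.2.1) :=
    hg.comp (f := fun q : (α × List (ℕ × Bool)) × (ℕ × Bool) => (q.1.1, q.2.1)) (by fun_prop)
  fun_prop

theorem poly_eqc {α : Type} [Code α] {v p q : α → ℕ} (b : Bool) (hv : Poly v) (hp : Poly p)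
    (hq : Poly q) : Poly (fun a => eqc (v a) b (p a) (q a)) := by
  unfold eqc
  fun_prop

theorem poly_linkc {α : Type} [Code α] {W l j : α → ℕ} (hW : Poly W) (hl : Poly l) (hj : Poly j) :
    Poly (fun a => linkc (W a) (l a) (j a)) := by
  have h : Poly (fun a => selv (W a) (l a)) := by
    unfold selv
    fun_prop
  have h1 : Poly (fun a => 2 * ((l a + 1) * (3 * W a) + j a)) := by fun_prop
  have h2 : Poly (fun a => 2 * (l a * (3 * W a) + j a)) := by fun_prop
  have h3 : Poly (fun a => 2 * ((l a + 1) * (3 * W a) + (W a + j a))) := by fun_prop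
  have h4 : Poly (fun a => 2 * (l a * (3 * W a) + (2 * W a + j a))) := by fun_prop
  have h5 : Poly (fun a => 2 * (l a * (3 * W a) + (W a + j a))) := by fun_prop
  have e1 := poly_eqc true h h1 h2
  have e2 := poly_eqc true h h3 h4
  have e3 := poly_eqc false h h1 h4
  have e4 := poly_eqc false h h3 h5
  unfold linkc
  exact FP.Poly.append e1 (FP.Poly.append e2 (FP.Poly.append e3 e4))

theorem poly_relc (w : ℕ) (bL bR bw : List (List (ℕ × Bool))) {α : Type} [Code α]
    {N W A : α → ℕ} (hN : Poly N) (hNb : PolyBdd N) (hW : Poly W) (hA : Poly A) :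
    Poly (fun a => relc w bL bR bw (N a) (W a) (A a)) := by
  have h1 : Poly (fun q : α × ℕ => 2 * (A q.1 + (0 * w + q.2))) := by fun_prop
  have h2 : Poly (fun q : α × ℕ => 2 * (A q.1 + (N q.1 * w + q.2))) := by fun_prop
  have h3 : Poly (fun q : α × ℕ => 2 * (A q.1 + ((N q.1 + 1) * w + q.2))) := by fun_prop
  have h4 : Poly (fun q : α × ℕ => 2 * (A q.1 + (W q.1 + (0 * w + q.2)))) := by fun_prop
  have h5 : Poly (fun q : α × ℕ => 2 * (A q.1 + (W q.1 + (N q.1 * w + q.2)))) := by fun_prop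
  have h6 : Poly (fun q : α × ℕ => 2 * (A q.1 + (W q.1 + ((N q.1 + 1) * w + q.2)))) := by fun_prop
  have e1 := poly_ren (g := fun a p => 2 * (A a + (0 * w + p))) h1 (FP.Poly.const bL)
  have e2 := poly_ren (g := fun a p => 2 * (A a + (N a * w + p))) h2 (FP.Poly.const bR)
  have e3 := poly_ren (g := fun a p => 2 * (A a + ((N a + 1) * w + p))) h3 (FP.Poly.const bR)
  have e4 := poly_ren (g := fun a p => 2 * (A a + (W a + (0 * w + p)))) h4 (FP.Poly.const bL)
  have e5 := poly_ren (g := fun a p => 2 * (A a + (W a + (N a * w + p)))) h5 (FP.Poly.const bR)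
  have e6 := poly_ren (g := fun a p => 2 * (A a + (W a + ((N a + 1) * w + p)))) h6
    (FP.Poly.const bR)
  have h7 : Poly (fun r : (α × ℕ) × ℕ => if r.2 < 3 * w then
      2 * (A r.1.1 + (r.1.2 * w + r.2))
      else 2 * (A r.1.1 + (W r.1.1 + ((r.1.2 + 1) * w + (r.2 - 3 * w))))) := by fun_prop
  have e7 := poly_ren (g := fun (q : α × ℕ) p => if p < 3 * w then 2 * (A q.1 + (q.2 * w + p))
    else 2 * (A q.1 + (W q.1 + ((q.2 + 1) * w + (p - 3 * w))))) h7 (FP.Poly.const bw)
  have e8 := FP.Poly.flatMap (g := fun a i => ren (fun p => if p < 3 * w then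
    2 * (A a + (i * w + p)) else 2 * (A a + (W a + ((i + 1) * w + (p - 3 * w))))) bw)
    (FP.Poly.range hN hNb) e7
  unfold relc
  exact FP.Poly.append e1 (FP.Poly.append e2 (FP.Poly.append e3 (FP.Poly.append e4
    (FP.Poly.append e5 (FP.Poly.append e6 e8)))))

theorem poly_fml (w : ℕ) (bd : Cl → List (List (ℕ × Bool))) (bw : List (List (ℕ × Bool)))
    {α : Type} [Code α] {N n1 W : α → ℕ} {y : α → List Bool} (hN : Poly N) (hNb : PolyBdd N)
    (h1 : Poly n1) (hy : Poly y) (hW : Poly W) (hWb : PolyBdd W) :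
    Poly (fun x => fml w bd bw (N x) (n1 x) (y x) (W x)) := by
  have hbd : Poly (fun p : α × ℕ => bd (PSP.icl (n1 p.1) (y p.1) p.2)) := by
    have := poly_icl (n1 := fun p : α × ℕ => n1 p.1) (y := fun p => y p.1) (i := fun p => p.2)
      (by fun_prop) (by fun_prop) (by fun_prop)
    exact (FP.Poly.ofFinite bd).comp this
  have g1 : Poly (fun r : (α × ℕ) × ℕ => 2 * (0 * (3 * W r.1.1) + (r.1.2 * w + r.2))) := by
    fun_prop
  have e1 := poly_ren (g := fun (q : α × ℕ) p => 2 * (0 * (3 * W q.1) + (q.2 * w + p))) g1 hbd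
  have r1 : Poly (fun a => List.range (N a + 2)) := FP.Poly.range (by fun_prop) (by fun_prop)
  have e2 := FP.Poly.flatMap (g := fun a i => ren (fun p => 2 * (0 * (3 * W a) + (i * w + p)))
      (bd (icl (n1 a) (y a) i))) r1 e1
  have g2 : Poly (fun q : α × ℕ => 2 * (0 * (3 * W q.1) + (W q.1 + (1 * w + q.2)))) := by fun_prop
  have e3 := poly_ren (g := fun a p => 2 * (0 * (3 * W a) + (W a + (1 * w + p)))) g2
    (FP.Poly.const (bd .acc))
  have e4 : Poly (fun r : (α × ℕ) × ℕ => linkc (W r.1.1) r.1.2 r.2) :=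
    poly_linkc (W := fun r : (α × ℕ) × ℕ => W r.1.1) (l := fun r => r.1.2) (j := fun r => r.2)
      (by fun_prop) (by fun_prop) (by fun_prop)
  have r2 : Poly (fun q : α × ℕ => List.range (W q.1)) :=
    FP.Poly.range (by fun_prop) (by fun_prop)
  have e5 := FP.Poly.flatMap (g := fun (q : α × ℕ) j => linkc (W q.1) q.2 j) r2 e4
  have e6 := FP.Poly.flatMap
    (g := fun a l => (List.range (W a)).flatMap (fun j => linkc (W a) l j))
    (FP.Poly.range hW hWb) e5
  have g3 : Poly (fun a => W a * (3 * W a)) := by fun_prop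
  have e7 := poly_relc w (bd .cL) (bd .cR) bw hN hNb hW g3
  unfold fml
  exact FP.Poly.append e2 (FP.Poly.append e3 (FP.Poly.append e6 e7))

/-- Quantified Boolean formulas are PSPACE-hard (Stockmeyer and Meyer). -/
theorem pspace_qbf {L : Set (List Bool)} (hL : L ∈ PSPACE) :
    ∃ (n : List Bool → ℕ) (F : List Bool → List (List (ℕ × Bool))),
      Poly n ∧ PolyBdd n ∧ Poly F ∧ (∀ x, ∀ C ∈ F x, ∀ l ∈ C, l.1 < 2 * n x) ∧
      ∀ x, x ∈ L ↔ ArcK.QTrue (n x) (F x) := by
  obtain ⟨w, al, Wd, P, hw, h⟩ := pspace_rows hL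
  refine ⟨fun x => ((P.eval x.length + 2) * w + 1) * (3 * ((P.eval x.length + 2) * w)),
    fun x => fml w (fun c => bad w (al c)) (bad (4 * w) (win4 Wd)) (P.eval x.length)
      (x.length + 1) (false :: x.reverse) ((P.eval x.length + 2) * w), ?_, ?_, ?_, ?_, ?_⟩
  · fun_prop
  · fun_prop
  · exact poly_fml w _ _ (by fun_prop) (by fun_prop) (by fun_prop) (by fun_prop) (by fun_prop)
      (by fun_prop)
  · intro x
    exact vlt_fml al Wd _ _ _ hw
  · intro x
    rw [h x, ArcK.QTrue, qtrueFrom_iff]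
    rw [← QT_Mat_iff (Ini al (x.length + 1) (P.eval x.length) (false :: x.reverse))
      (Acc al (P.eval x.length)) (Nat.mul_pos (by omega) hw) _ (Rel al Wd (P.eval x.length))
      (fun _ => false)]
    have e : ArcK.Sat (fml w (fun c => bad w (al c)) (bad (4 * w) (win4 Wd)) (P.eval x.length)
      (x.length + 1) (false :: x.reverse) ((P.eval x.length + 2) * w)) =
      Mat ((P.eval x.length + 2) * w) (Ini al (x.length + 1) (P.eval x.length)
        (false :: x.reverse)) (Acc al (P.eval x.length)) ((P.eval x.length + 2) * w)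
        (Rel al Wd (P.eval x.length)) := by
      funext s
      exact propext (sat_fml al Wd _ _ _ s)
    rw [e]

end PSP
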