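import Pool.Agent.PSP.Savitch
import Pool.Agent.NPC.Micro

/-!
# Configurations of a multi-stack machine as rows of cells
-/

namespace PSP

open Function Turing NPC

section Row

variable (M : Mach)

/-- boundary conditions of a row -/
def RowOK (N : ℕ) (r : ℕ → M.Cell) : Prop :=
  (∀ k, (r 0).2 k = some none) ∧ (∀ k, (r N).2 k = none) ∧ (∀ k, (r (N + 1)).2 k = none)

/-- the relation between a row and the next row -/
def RowRel (N : ℕ) (r r' : ℕ → M.Cell) : Prop :=
  RowOK M N r ∧ RowOK M N r' ∧ ∀ i < N, M.W (r i) (r (i + 1)) (r (i + 2)) (r' (i + 1))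

/-- the row of a configuration -/
def rowOf (c : M.Cf) : ℕ → M.Cell := fun i => ((c.1, M.heads c.2), fun k => ct (c.2 k) i)

/-- the row `r` describes the configuration `c` -/
def Sh (N : ℕ) (c : M.Cf) (r : ℕ → M.Cell) : Prop :=
  (r 1).1.1 = c.1 ∧ ∀ i < N + 2, ∀ k, (r i).2 k = ct (c.2 k) i

theorem RowRel.congr {N : ℕ} {r r' s s' : ℕ → M.Cell} (h : ∀ i < N + 2, r i = s i)
    (h' : ∀ i < N + 2, r' i = s' i) : RowRel M N r r' ↔ RowRel M N s s' := by
  unfold RowRel RowOK
  rw [h 0 (by omega), h N (by omega), h (N + 1) (by omega), h' 0 (by omega), h' N (by omega),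
    h' (N + 1) (by omega)]
  refine and_congr_right fun _ => and_congr_right fun _ => forall_congr' fun i =>
    forall_congr' fun hi => ?_
  rw [h i (by omega), h (i + 1) (by omega), h (i + 2) (by omega), h' (i + 1) (by omega)]

theorem rowOK_rowOf {N : ℕ} {c : M.Cf} (hc : ∀ k, (c.2 k).length < N) :
    RowOK M N (rowOf M c) := by
  refine ⟨fun k => ct_zero _, fun k => ?_, fun k => ?_⟩
  · exact (ct_eq_none _ _).2 (hc k)
  · exact (ct_eq_none _ _).2 (by have := hc k; omega)

theorem rowRel_step {N : ℕ} {c : M.Cf} (hc : ∀ k, (c.2 k).length < N)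
    (hc' : ∀ k, ((M.step c).2 k).length < N) :
    RowRel M N (rowOf M c) (rowOf M (M.step c)) := by
  refine ⟨rowOK_rowOf M hc, rowOK_rowOf M hc', ?_⟩
  intro i _
  refine ⟨rfl, rfl, ?_, ?_, ?_⟩
  · intro k ha hb
    change ct (c.2 k) i ≠ none at ha
    change ct (c.2 k) (i + 1) = none at hb
    change ct (c.2 k) i = some _
    rw [ne_eq, ct_eq_none] at ha
    rw [ct_eq_none] at hb
    have : (c.2 k).length = i := by omega
    rw [← this, ct_top]
    rfl
  · intro k hb
    change ct (c.2 k) (i + 1) = none at hb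
    change ct (c.2 k) (i + 2) = none
    rw [ct_eq_none] at hb ⊢
    omega
  · intro k
    exact ct_app _ _ _

theorem Sh.step {N : ℕ} {c : M.Cf} {r r' : ℕ → M.Cell} (hN : 0 < N)
    (hc : ∀ k, (c.2 k).length < N) (hc' : ∀ k, ((M.step c).2 k).length < N) (h : Sh M N c r)
    (hr : RowRel M N r r') : Sh M N (M.step c) r' := by
  obtain ⟨h1, h2⟩ := h
  obtain ⟨-, ⟨hL, hR, hR2⟩, hW⟩ := hr
  have hg : ∀ i ≤ N, (r i).1 = (r 1).1 := by
    intro i
    induction i with
    | zero => intro _; exact (hW 0 (by omega)).1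
    | succ i ihi =>
      intro hi
      rw [← ihi (by omega)]
      exact ((hW i (by omega)).1).symm
  have hq : ∀ i ≤ N, (r i).1.1 = c.1 := by
    intro i hi
    rw [hg i hi, h1]
  have htop : ∀ i ≤ N, (r i).1.2 = M.heads c.2 := by
    intro i hi
    funext k
    have hlen := hc k
    set L := (c.2 k).length with hL'
    have h3 := (hW L hlen).2.2.1 k
      (by
        rw [h2 L (by omega) k, ne_eq, ct_eq_none]
        omega)
      (by
        rw [h2 (L + 1) (by omega) k, ct_eq_none]
        omega)
    rw [h2 L (by omega) k, hL', ct_top] at h3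
    rw [hg i hi, ← hg (L + 1) (by omega)]
    have h4 := Option.some.inj h3
    rw [← hL'] at h4
    exact h4.symm
  have hnext : ∀ i < N, ∀ k, (r' (i + 1)).2 k = ct ((M.step c).2 k) (i + 1) := by
    intro i hi k
    rw [(hW i hi).2.2.2.2 k, hq (i + 1) (by omega), htop (i + 1) (by omega),
      h2 i (by omega) k, h2 (i + 1) (by omega) k, h2 (i + 2) (by omega) k]
    exact (ct_app _ _ _).symm
  refine ⟨?_, ?_⟩
  · have := (hW 0 (by omega)).2.1
    rw [hq 1 (by omega), htop 1 (by omega)] at this
    exact this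
  · intro i hi k
    rcases i with _ | i
    · rw [hL k, ct_zero]
    · rcases Nat.lt_trichotomy i N with h | h | h
      · exact hnext i h k
      · subst h
        rw [hR2 k]
        symm
        rw [ct_eq_none]
        have := hc' k
        omega
      · omega

theorem ct_inj {A : Type} {s t : List A} {N : ℕ} (hs : s.length < N) (ht : t.length < N)
    (h : ∀ i < N + 2, ct s i = ct t i) : s = t := by
  have h1 : (none :: s.reverse.map some) = (none :: t.reverse.map some) := by
    apply List.ext_getElem?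
    intro i
    rcases Nat.lt_or_ge i (N + 2) with hi | hi
    · exact h i hi
    · have e1 := (ct_eq_none s i).2 (by omega)
      have e2 := (ct_eq_none t i).2 (by omega)
      exact e1.trans e2.symm
  have h2 : s.reverse.map some = t.reverse.map some := (List.cons.inj h1).2
  have h3 := List.map_injective_iff.2 (Option.some_injective A) h2
  exact List.reverse_injective h3

theorem rowOf_inj {N : ℕ} {c c' : M.Cf} (hc : ∀ k, (c.2 k).length < N)
    (hc' : ∀ k, (c'.2 k).length < N) (h : ∀ i < N + 2, rowOf M c i = rowOf M c' i) : c = c' := by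
  have h1 : c.1 = c'.1 := by
    have := h 0 (by omega)
    exact congrArg (fun z : M.Cell => z.1.1) this
  refine Prod.ext h1 (funext fun k => ct_inj (hc k) (hc' k) fun i hi => ?_)
  exact congrArg (fun z : M.Cell => z.2 k) (h i hi)

end Row

/-! ### Encoding of rows by bits -/

section Bits

variable {w W : ℕ}

/-- extension of a vector by `false` -/
def ext0 (a : Fin W → Bool) (n : ℕ) : Bool := if h : n < W then a ⟨n, h⟩ else false

/-- the `i`-th cell of a vector -/
def cellv (w : ℕ) (a : Fin W → Bool) (i : ℕ) : Fin w → Bool := fun j => ext0 a (i * w + j)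

variable {C : Type} (en : C → Fin w → Bool)

/-- the vector of a row -/
def vecOf (W : ℕ) (r : ℕ → C) : Fin W → Bool :=
  fun n => if h : n.1 % w < w then en (r (n.1 / w)) ⟨n.1 % w, h⟩ else false

theorem cellv_vecOf (N : ℕ) (r : ℕ → C) {i : ℕ} (hi : i < N + 2) :
    cellv w (vecOf en ((N + 2) * w) r) i = en (r i) := by
  funext j
  have hj := j.2
  have h1 : i * w + j.1 < (N + 2) * w := by
    calc i * w + j.1 < i * w + w := by omega
      _ = (i + 1) * w := by ring
      _ ≤ (N + 2) * w := Nat.mul_le_mul_right _ hi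
  have h2 : (i * w + j.1) % w = j.1 := by
    rw [Nat.add_comm, Nat.add_mul_mod_self_right, Nat.mod_eq_of_lt hj]
  have h3 : (i * w + j.1) / w = i := by
    rw [Nat.add_comm, Nat.add_mul_div_right _ _ (by omega), Nat.div_eq_of_lt hj, Nat.zero_add]
  simp only [cellv, ext0]
  rw [dif_pos h1]
  simp only [vecOf, h2, h3]
  rw [dif_pos hj]

end Bits

/-! ### Time bound by counting configurations -/

theorem iterate_fix {C : Type} (f : C → C) {c : C} {d : ℕ} (h : f^[d] c = c) (j : ℕ) :
    f^[j * d] c = c := by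
  induction j with
  | zero => rw [Nat.zero_mul]; rfl
  | succ j ih => rw [Nat.succ_mul, iterate_add_apply, h, ih]

/-- An orbit that becomes constant and whose points are described by `W` bits is constant from the
time `2 ^ W` on. -/
theorem orbit_const {C : Type} (f : C → C) (c h : C) (n : ℕ) (hn : ∀ t, f^[n + t] c = h) (W : ℕ)
    (g : C → Fin W → Bool) (hg : ∀ s t, g (f^[s] c) = g (f^[t] c) → f^[s] c = f^[t] c) :
    f^[2 ^ W] c = h := by
  obtain ⟨s, t, hst, he⟩ := Fintype.exists_ne_map_eq_of_card_lt
    (fun t : Fin (2 ^ W + 1) => g (f^[t.1] c)) (by simp)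
  have key : ∀ s t : ℕ, s < t → t ≤ 2 ^ W → g (f^[s] c) = g (f^[t] c) → f^[2 ^ W] c = h := by
    intro s t h1 h2 h3
    have h4 := hg s t h3
    obtain ⟨d, rfl⟩ : ∃ d, t = d + s := ⟨t - s, by omega⟩
    rw [iterate_add_apply] at h4
    have h5 := iterate_fix f h4.symm (n + 1)
    rw [← iterate_add_apply] at h5
    have h6 : f^[s] c = h := by
      rw [← h5]
      obtain ⟨e, he⟩ : ∃ e, (n + 1) * d + s = n + e := by
        have : n + 1 ≤ (n + 1) * d := Nat.le_mul_of_pos_right _ (by omega)
        exact ⟨(n + 1) * d + s - n, by omega⟩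
      rw [he]
      exact hn e
    have h7 : ∀ e, f^[e] h = h := by
      intro e
      have := hn e
      rw [Nat.add_comm, iterate_add_apply] at this
      have h8 := hn 0
      rw [Nat.add_zero] at h8
      rw [h8] at this
      exact this
    obtain ⟨e, he⟩ : ∃ e, 2 ^ W = e + s := ⟨2 ^ W - s, by omega⟩
    rw [he, iterate_add_apply, h6, h7]
  rcases Nat.lt_or_ge s.1 t.1 with h1 | h1
  · exact key s.1 t.1 h1 (by have := t.2; omega) he
  · have h2 : t.1 < s.1 := by
      rcases Nat.lt_or_ge t.1 s.1 with h | h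
      · exact h
      · exact absurd (Fin.ext (by omega)) hst
    exact key t.1 s.1 h2 (by have := s.2; omega) he.symm

end PSP
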