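import Pool.Agent.PSP.Defs

/-!
# Repeated squaring of a relation by a quantified formula
-/

namespace PSP

open Function

/-- The `2 ^ k`-fold composition of `R` with itself. -/
def Pow2 {V : Type} (R : V → V → Prop) : ℕ → V → V → Prop
  | 0, a, b => R a b
  | k + 1, a, b => ∃ m, Pow2 R k a m ∧ Pow2 R k m b

section Skip

variable {P : (ℕ → Bool) → Prop}

theorem QT_update {v : ℕ} (hP : ∀ s y, P (update s v y) ↔ P s) : ∀ (k i : ℕ) (s : ℕ → Bool)
    (y : Bool), QT P k i (update s v y) ↔ QT P k i s
  | 0, _, s, y => hP s y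
  | k + 1, i, s, y => by
    simp only [QT]
    refine exists_congr fun x => forall_congr' fun z => ?_
    by_cases h1 : v = 2 * i + 1
    · subst h1
      rw [update_comm (show 2 * i + 1 ≠ 2 * i by omega), update_idem]
    · by_cases h2 : v = 2 * i
      · subst h2
        rw [update_idem]
      · rw [update_comm h2, update_comm h1]
        exact QT_update hP k (i + 1) _ y

/-- `s'` agrees with `s` outside the variables `X_i, …, X_{i+k-1}`. -/
def Agr (i k : ℕ) (s s' : ℕ → Bool) : Prop :=
  ∀ v, ¬ (v % 2 = 0 ∧ 2 * i ≤ v ∧ v < 2 * (i + k)) → s' v = s v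

theorem QT_skip (r : ℕ) : ∀ (k i : ℕ) (s : ℕ → Bool),
    (∀ t < k, ∀ s y, P (update s (2 * (i + t) + 1) y) ↔ P s) →
      (QT P (k + r) i s ↔ ∃ s', Agr i k s s' ∧ QT P r (i + k) s')
  | 0, i, s, _ => by
    constructor
    · intro h
      refine ⟨s, fun v _ => rfl, ?_⟩
      rw [Nat.zero_add] at h
      exact h
    · rintro ⟨s', h1, h2⟩
      have : s' = s := funext fun v => h1 v (by omega)
      rw [this] at h2
      rw [Nat.zero_add]
      exact h2
  | k + 1, i, s, hP => by
    have e1 : k + 1 + r = (k + r) + 1 := by ring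
    have e2 : i + (k + 1) = (i + 1) + k := by ring
    rw [e1, e2]
    simp only [QT]
    have h0 := fun k' s y => QT_update (P := P) (v := 2 * i + 1)
      (fun s y => by simpa using hP 0 (by omega) s y) k' (i + 1) s y
    have h1 : ∀ x, (∀ y, QT P (k + r) (i + 1) (update (update s (2 * i) x) (2 * i + 1) y)) ↔
        ∃ s', Agr (i + 1) k (update s (2 * i) x) s' ∧ QT P r (i + 1 + k) s' := by
      intro x
      rw [← QT_skip r k (i + 1) (update s (2 * i) x) (fun t ht s y => by
        rw [show i + 1 + t = i + (t + 1) by ring]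
        exact hP (t + 1) (by omega) s y)]
      constructor
      · intro h; exact (h0 _ _ true).1 (h true)
      · intro h y; exact (h0 _ _ y).2 h
    simp only [h1]
    constructor
    · rintro ⟨x, s', h2, h3⟩
      refine ⟨s', ?_, h3⟩
      intro v hv
      rw [h2 v (by omega), update_of_ne (by omega)]
    · rintro ⟨s', h2, h3⟩
      refine ⟨s' (2 * i), s', ?_, h3⟩
      intro v hv
      by_cases h : v = 2 * i
      · rw [h, update_self]
      · rw [update_of_ne h]
        exact h2 v (by omega)

/-- A block of `B` pairs of variables, where only the last universal variable matters. -/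
theorem QT_block (r B i : ℕ) (hB : 0 < B) (s : ℕ → Bool)
    (hP : ∀ t, t + 1 < B → ∀ s y, P (update s (2 * (i + t) + 1) y) ↔ P s) :
    QT P (B + r) i s ↔ ∃ s', Agr i B s s' ∧
      ∀ y, QT P r (i + B) (update s' (2 * (i + B - 1) + 1) y) := by
  obtain ⟨b, rfl⟩ : ∃ b, B = b + 1 := ⟨B - 1, by omega⟩
  rw [show b + 1 + r = b + (r + 1) by ring,
    QT_skip (r + 1) b i s (fun t ht => hP t (by omega))]
  simp only [QT]
  rw [show i + (b + 1) - 1 = i + b by omega, show i + (b + 1) = i + b + 1 by ring]
  constructor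
  · rintro ⟨s', h1, x, h2⟩
    refine ⟨update s' (2 * (i + b)) x, ?_, h2⟩
    intro v hv
    rw [update_of_ne (by omega)]
    exact h1 v (by omega)
  · rintro ⟨s', h1, h2⟩
    refine ⟨update s' (2 * (i + b)) (s (2 * (i + b))), ?_, s' (2 * (i + b)), ?_⟩
    · intro v hv
      by_cases h : v = 2 * (i + b)
      · rw [h, update_self]
      · rw [update_of_ne h]
        exact h1 v (by omega)
    · intro y
      rw [update_idem, update_eq_self]
      exact h2 y

end Skip

section Layers

variable (W : ℕ)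

/-- the three vectors of block `l` and its selector -/
def va (l : ℕ) (s : ℕ → Bool) : Fin W → Bool := fun j => s (2 * (l * (3 * W) + j))
/-- second vector -/
def vb (l : ℕ) (s : ℕ → Bool) : Fin W → Bool := fun j => s (2 * (l * (3 * W) + (W + j)))
/-- third vector -/
def vm (l : ℕ) (s : ℕ → Bool) : Fin W → Bool := fun j => s (2 * (l * (3 * W) + (2 * W + j)))
/-- number of the selector variable of block `l` -/
def selv (l : ℕ) : ℕ := 2 * (l * (3 * W) + 3 * W - 1) + 1

variable (Ini Acc : (Fin W → Bool) → Prop)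

/-- constraints on the two first vectors of block `l` -/
def Cn : ℕ → (ℕ → Bool) → (Fin W → Bool) → (Fin W → Bool) → Prop
  | 0, _, a, b => Ini a ∧ Acc b
  | l + 1, s, a, b => (s (selv W l) = true → a = va W l s ∧ b = vm W l s) ∧
      (s (selv W l) = false → a = vm W l s ∧ b = vb W l s)

/-- The matrix of the quantified formula. -/
def Mat (T : ℕ) (R : (Fin W → Bool) → (Fin W → Bool) → Prop) (s : ℕ → Bool) : Prop :=
  (∀ l < T + 1, Cn W Ini Acc l s (va W l s) (vb W l s)) ∧ R (va W T s) (vb W T s)

variable {W}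

/-- `s` and `s'` have the same even variables below `2 · 3 W · l` and the same selectors of the
blocks `< l`. -/
def Same (W l : ℕ) (s s' : ℕ → Bool) : Prop :=
  (∀ j < l * (3 * W), s' (2 * j) = s (2 * j)) ∧ ∀ k < l, s' (selv W k) = s (selv W k)

theorem Same.vec {l k : ℕ} {s s' : ℕ → Bool} (h : Same W l s s') (hk : k < l) :
    va W k s' = va W k s ∧ vb W k s' = vb W k s ∧ vm W k s' = vm W k s := by
  have h1 : k * (3 * W) + 3 * W ≤ l * (3 * W) := by
    calc k * (3 * W) + 3 * W = (k + 1) * (3 * W) := by ring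
      _ ≤ l * (3 * W) := Nat.mul_le_mul_right _ hk
  refine ⟨?_, ?_, ?_⟩
  · funext j
    exact h.1 _ (by omega)
  · funext j
    exact h.1 _ (by omega)
  · funext j
    exact h.1 _ (by omega)

theorem Cn_congr {l : ℕ} {s s' : ℕ → Bool} (h : Same W l s s') (a b : Fin W → Bool) :
    Cn W Ini Acc l s' a b ↔ Cn W Ini Acc l s a b := by
  cases l with
  | zero => exact Iff.rfl
  | succ l =>
    obtain ⟨h1, h2, h3⟩ := h.vec (Nat.lt_succ_self l)
    simp only [Cn, h1, h2, h3, h.2 l (Nat.lt_succ_self l)]

theorem Same.mono {l k : ℕ} {s s' : ℕ → Bool} (h : Same W l s s') (hk : k ≤ l) :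
    Same W k s s' :=
  ⟨fun j hj => h.1 j (lt_of_lt_of_le hj (Nat.mul_le_mul_right _ hk)),
    fun j hj => h.2 j (by omega)⟩

theorem selv_lt (hW : 0 < W) {k l : ℕ} (h : k < l) : selv W k < 2 * (l * (3 * W)) := by
  have h1 : k * (3 * W) + 3 * W ≤ l * (3 * W) := by
    calc k * (3 * W) + 3 * W = (k + 1) * (3 * W) := by ring
      _ ≤ l * (3 * W) := Nat.mul_le_mul_right _ h
  unfold selv
  omega

theorem Agr.same (hW : 0 < W) {l : ℕ} {s s' : ℕ → Bool} (h : Agr (l * (3 * W)) (3 * W) s s') :
    Same W l s s' := by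
  refine ⟨fun j hj => h _ (by omega), fun k hk => h _ ?_⟩
  have := selv_lt hW hk
  omega

theorem Same.upd (hW : 0 < W) {l : ℕ} {s s' : ℕ → Bool} (h : Same W l s s') {v : ℕ} (y : Bool)
    (hv : 2 * (l * (3 * W)) ≤ v) : Same W l s (update s' v y) := by
  refine ⟨fun j hj => ?_, fun k hk => ?_⟩
  · rw [update_of_ne (by omega)]
    exact h.1 j hj
  · have := selv_lt hW hk
    rw [update_of_ne (by omega)]
    exact h.2 k hk

theorem vec_upd_odd {l v : ℕ} (hv : v % 2 = 1) (s : ℕ → Bool) (y : Bool) :
    va W l (update s v y) = va W l s ∧ vb W l (update s v y) = vb W l s ∧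
      vm W l (update s v y) = vm W l s := by
  refine ⟨?_, ?_, ?_⟩
  · funext j
    exact update_of_ne (by omega) _ _
  · funext j
    exact update_of_ne (by omega) _ _
  · funext j
    exact update_of_ne (by omega) _ _

/-- an assignment with given vectors in block `l` -/
theorem exists_block (l : ℕ) (s : ℕ → Bool) (a b m : Fin W → Bool) :
    ∃ s', Agr (l * (3 * W)) (3 * W) s s' ∧ va W l s' = a ∧ vb W l s' = b ∧ vm W l s' = m := by
  classical
  refine ⟨fun v => if v % 2 = 0 ∧ 2 * (l * (3 * W)) ≤ v ∧ v < 2 * (l * (3 * W) + 3 * W) then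
    (if h : v / 2 - l * (3 * W) < W then a ⟨_, h⟩ else
      if h : v / 2 - l * (3 * W) - W < W then b ⟨_, h⟩ else
      if h : v / 2 - l * (3 * W) - 2 * W < W then m ⟨_, h⟩ else false) else s v, ?_, ?_, ?_, ?_⟩
  · intro v hv
    simp only
    rw [if_neg hv]
  · funext j
    have hj := j.2
    have e : 2 * (l * (3 * W) + j.1) / 2 - l * (3 * W) = j.1 := by omega
    simp only [va]
    rw [if_pos (by omega)]
    simp only [e]
    rw [dif_pos hj]
  · funext j
    have hj := j.2
    have e : 2 * (l * (3 * W) + (W + j.1)) / 2 - l * (3 * W) = W + j.1 := by omega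
    simp only [vb]
    rw [if_pos (by omega)]
    simp only [e]
    rw [dif_neg (by omega)]
    simp only [Nat.add_sub_cancel_left]
    rw [dif_pos hj]
  · funext j
    have hj := j.2
    have e : 2 * (l * (3 * W) + (2 * W + j.1)) / 2 - l * (3 * W) = 2 * W + j.1 := by omega
    simp only [vm]
    rw [if_pos (by omega)]
    simp only [e]
    rw [dif_neg (by omega), dif_neg (by omega)]
    simp only [Nat.add_sub_cancel_left]
    rw [dif_pos hj]

theorem Mat_upd (hW : 0 < W) (T : ℕ) (R : (Fin W → Bool) → (Fin W → Bool) → Prop) {v : ℕ}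
    (hv : v % 2 = 1) (hv2 : ∀ l < T, v ≠ selv W l) (s : ℕ → Bool) (y : Bool) :
    Mat W Ini Acc T R (update s v y) ↔ Mat W Ini Acc T R s := by
  unfold Mat
  have h1 : ∀ l, va W l (update s v y) = va W l s := fun l => (vec_upd_odd hv s y).1
  have h2 : ∀ l, vb W l (update s v y) = vb W l s := fun l => (vec_upd_odd hv s y).2.1
  simp only [h1, h2]
  refine and_congr_left fun _ => forall_congr' fun l => forall_congr' fun hl => ?_
  apply Cn_congr
  refine ⟨fun j _ => update_of_ne (by omega) _ _, fun k hk => update_of_ne ?_ _ _⟩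
  exact (hv2 k (by omega)).symm

theorem selv_odd (hW : 0 < W) (l : ℕ) : selv W l % 2 = 1 := by
  unfold selv; omega

theorem mul_block_lt {W l k j : ℕ} (hj : j + 1 < 3 * W) (h : l * (3 * W) + j = k * (3 * W) + 3 * W - 1) :
    False := by
  have h0 : l * (3 * W) + j + 1 = (k + 1) * (3 * W) := by
    have : (k + 1) * (3 * W) = k * (3 * W) + 3 * W := by ring
    omega
  rcases Nat.lt_or_ge l (k + 1) with h1 | h1
  · have h2 : (l + 1) * (3 * W) ≤ (k + 1) * (3 * W) := Nat.mul_le_mul_right _ h1
    have h3 : (l + 1) * (3 * W) = l * (3 * W) + 3 * W := by ring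
    omega
  · have h2 : (k + 1) * (3 * W) ≤ l * (3 * W) := Nat.mul_le_mul_right _ h1
    omega

theorem QT_Mat (hW : 0 < W) (T : ℕ) (R : (Fin W → Bool) → (Fin W → Bool) → Prop) :
    ∀ (r l : ℕ) (s : ℕ → Bool), l + r = T →
      (QT (Mat W Ini Acc T R) ((r + 1) * (3 * W)) (l * (3 * W)) s ↔
        (∀ j < l, Cn W Ini Acc j s (va W j s) (vb W j s)) ∧
          ∃ a b, Cn W Ini Acc l s a b ∧ Pow2 R r a b) := by
  intro r
  induction r with
  | zero =>
    intro l s hl
    obtain rfl : l = T := by omega
    have e0 : (0 + 1) * (3 * W) = 3 * W + 0 := by ring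
    rw [e0, QT_block 0 (3 * W) (l * (3 * W)) (by omega) s (fun t ht s y =>
      Mat_upd Ini Acc hW l R (by omega) (fun k hk h => by
        unfold selv at h
        exact mul_block_lt (l := l) (k := k) ht (by omega)) s y)]
    have hM : ∀ s' y, Mat W Ini Acc l R (update s' (2 * (l * (3 * W) + 3 * W - 1) + 1) y) ↔
        Mat W Ini Acc l R s' := by
      intro s' y
      refine Mat_upd Ini Acc hW l R (by omega) (fun k hk h => ?_) s' y
      have := selv_lt hW hk
      omega
    simp only [QT, hM]
    constructor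
    · rintro ⟨s', h1, h2⟩
      obtain ⟨h3, h4⟩ := h2 true
      have hS := h1.same hW
      refine ⟨fun j hj => ?_, va W l s', vb W l s', ?_, h4⟩
      · have := h3 j (by omega)
        rw [(hS.vec hj).1, (hS.vec hj).2.1, Cn_congr Ini Acc (hS.mono hj.le)] at this
        exact this
      · have := h3 l (by omega)
        rw [Cn_congr Ini Acc hS] at this
        exact this
    · rintro ⟨h1, a, b, h2, h3⟩
      obtain ⟨s', h4, h5, h6, -⟩ := exists_block l s a b a
      have hS := h4.same hW
      refine ⟨s', h4, fun _ => ⟨fun j hj => ?_, ?_⟩⟩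
      · rcases Nat.lt_succ_iff_lt_or_eq.1 hj with hj | rfl
        · rw [(hS.vec hj).1, (hS.vec hj).2.1, Cn_congr Ini Acc (hS.mono hj.le)]
          exact h1 j hj
        · rw [Cn_congr Ini Acc hS, h5, h6]
          exact h2
      · rw [h5, h6]
        exact h3
  | succ r ih =>
    intro l s hl
    have e0 : (r + 1 + 1) * (3 * W) = 3 * W + (r + 1) * (3 * W) := by ring
    rw [e0, QT_block ((r + 1) * (3 * W)) (3 * W) (l * (3 * W)) (by omega) s (fun t ht s y =>
      Mat_upd Ini Acc hW T R (by omega) (fun k hk h => by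
        unfold selv at h
        exact mul_block_lt (l := l) (k := k) ht (by omega)) s y)]
    have e1 : l * (3 * W) + 3 * W = (l + 1) * (3 * W) := by ring
    have e2 : 2 * (l * (3 * W) + 3 * W - 1) + 1 = selv W l := rfl
    rw [e2, e1]
    simp only [ih (l + 1) _ (by omega : l + 1 + r = T)]
    have hodd := selv_odd hW l
    have key : ∀ s', Agr (l * (3 * W)) (3 * W) s s' → ((∀ y : Bool,
        (∀ j < l + 1, Cn W Ini Acc j (update s' (selv W l) y) (va W j (update s' (selv W l) y))
          (vb W j (update s' (selv W l) y))) ∧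
        ∃ a b, Cn W Ini Acc (l + 1) (update s' (selv W l) y) a b ∧ Pow2 R r a b) ↔
        (∀ j < l, Cn W Ini Acc j s (va W j s) (vb W j s)) ∧
          Cn W Ini Acc l s (va W l s') (vb W l s') ∧ Pow2 R r (va W l s') (vm W l s') ∧
            Pow2 R r (vm W l s') (vb W l s')) := by
      intro s' h1
      have hS := h1.same hW
      have hS2 : ∀ y, Same W l s (update s' (selv W l) y) := fun y =>
        hS.upd hW y (by unfold selv; omega)
      have ev : ∀ j y, va W j (update s' (selv W l) y) = va W j s' ∧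
          vb W j (update s' (selv W l) y) = vb W j s' ∧
          vm W j (update s' (selv W l) y) = vm W j s' := fun j y => vec_upd_odd hodd s' y
      have hC : ∀ y a b, Cn W Ini Acc (l + 1) (update s' (selv W l) y) a b ↔
          (y = true → a = va W l s' ∧ b = vm W l s') ∧
          (y = false → a = vm W l s' ∧ b = vb W l s') := by
        intro y a b
        simp only [Cn, update_self, (ev l y).1, (ev l y).2.1, (ev l y).2.2]
      constructor
      · intro h
        obtain ⟨h2, a, b, h3, h4⟩ := h true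
        obtain ⟨-, a', b', h3', h4'⟩ := h false
        rw [hC] at h3 h3'
        obtain ⟨rfl, rfl⟩ := h3.1 rfl
        obtain ⟨rfl, rfl⟩ := h3'.2 rfl
        refine ⟨fun j hj => ?_, ?_, h4, h4'⟩
        · have := h2 j (by omega)
          rw [(ev j true).1, (ev j true).2.1, (hS.vec hj).1, (hS.vec hj).2.1,
            Cn_congr Ini Acc ((hS2 true).mono hj.le)] at this
          exact this
        · have := h2 l (by omega)
          rw [(ev l true).1, (ev l true).2.1, Cn_congr Ini Acc (hS2 true)] at this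
          exact this
      · rintro ⟨h2, h3, h4, h5⟩ y
        refine ⟨fun j hj => ?_, ?_⟩
        · rcases Nat.lt_succ_iff_lt_or_eq.1 hj with hj | rfl
          · rw [(ev j y).1, (ev j y).2.1, (hS.vec hj).1, (hS.vec hj).2.1,
              Cn_congr Ini Acc ((hS2 y).mono hj.le)]
            exact h2 j hj
          · rw [(ev j y).1, (ev j y).2.1, Cn_congr Ini Acc (hS2 y)]
            exact h3
        · simp only [hC]
          rcases y with _ | _
          · exact ⟨_, _, ⟨fun h => absurd h (by simp), fun _ => ⟨rfl, rfl⟩⟩, h5⟩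
          · exact ⟨_, _, ⟨fun _ => ⟨rfl, rfl⟩, fun h => absurd h (by simp)⟩, h4⟩
    constructor
    · rintro ⟨s', h1, h2⟩
      obtain ⟨h3, h4, h5, h6⟩ := (key s' h1).1 h2
      exact ⟨h3, _, _, h4, _, h5, h6⟩
    · rintro ⟨h3, a, b, h4, m, h5, h6⟩
      obtain ⟨s', h7, h8, h9, h10⟩ := exists_block l s a b m
      refine ⟨s', h7, (key s' h7).2 ⟨h3, ?_, ?_, ?_⟩⟩
      · rw [h8, h9]; exact h4
      · rw [h8, h10]; exact h5
      · rw [h9, h10]; exact h6

/-- The quantified formula expresses `2 ^ T` steps of the relation `R`. -/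
theorem QT_Mat_iff (hW : 0 < W) (T : ℕ) (R : (Fin W → Bool) → (Fin W → Bool) → Prop)
    (s : ℕ → Bool) :
    QT (Mat W Ini Acc T R) ((T + 1) * (3 * W)) 0 s ↔
      ∃ a b, Ini a ∧ Acc b ∧ Pow2 R T a b := by
  have h := QT_Mat Ini Acc hW T R T 0 s (by omega)
  rw [Nat.zero_mul] at h
  rw [h]
  constructor
  · rintro ⟨-, a, b, ⟨h1, h2⟩, h3⟩
    exact ⟨a, b, h1, h2, h3⟩
  · rintro ⟨a, b, h1, h2, h3⟩
    exact ⟨fun j hj => absurd hj (by omega), a, b, ⟨h1, h2⟩, h3⟩

end Layers

end PSP
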