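import Pool.Agent.PSP.SpaceBase
import Pool.Agent.PSP.Defs
import Pool.Agent.PolyTime.Interface

/-!
# The membership engine of PSPACE: iterating a polynomial-time step function
-/

namespace PSP

open Turing NPC Function FP

/-- A program all of whose configurations are small decides a language in small space. -/
theorem decidesInSpace_of_runS (p : Prog ℕ) (k₀ k₁ : ℕ) (L : Set (List Bool)) (s : ℕ → ℕ)
    (h : ∀ x : List Bool, ∃ b : Bool, (b = true ↔ x ∈ L) ∧ RunS (s x.length) p (none, false)
      (update (fun _ => []) k₀ (encStr x)) (none, false)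
      (update (fun _ => []) k₁ (encBool b))) :
    DecidesInSpace (mkTM p k₀ k₁) (Equiv.refl _) (Equiv.refl _) L s := by
  intro x
  obtain ⟨b, hb, hr⟩ := h x
  have hp : p.keys ⊆ (insert k₀ (insert k₁ p.keys) : Finset ℕ) := by
    intro x hx; simp [hx]
  have h1 := hr.restrict hp
  have h2 := runS_path (mkTM p k₀ k₁).m h1 some none (fun l => rfl)
  have h3 : PathB (mkTM p k₀ k₁).m (s x.length)
      ⟨some none, (none, false), fun j => update (fun _ => []) k₁ (encBool b) j.1⟩
      ⟨none, (none, false), fun j => update (fun _ => []) k₁ (encBool b) j.1⟩ :=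
    PathB.one rfl (fun j => hr.bd.2 j.1)
  have h4 := Relation.ReflTransGen.trans h2 h3
  have e1 : initList (mkTM p k₀ k₁) (List.map (Equiv.refl _).symm (encStr x)) =
      ⟨some (some (p.restrict _ hp).entry), (none, false),
        fun j => update (fun _ => []) k₀ (encStr x) j.1⟩ := by
    unfold initList
    congr 1
    funext k
    by_cases hk : k = (mkTM p k₀ k₁).k₀
    · rw [dif_pos hk]
      subst hk
      change List.map id (encStr x) = update (fun _ => []) k₀ (encStr x) k₀
      rw [update_self, List.map_id]
    · rw [dif_neg hk]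
      change [] = update (fun _ => []) k₀ (encStr x) k.1
      rw [update_of_ne]
      intro h
      exact hk (Subtype.ext h)
  have e2 : haltList (mkTM p k₀ k₁) (List.map (Equiv.refl _).symm (encBool b)) =
      ⟨none, (none, false), fun j => update (fun _ => []) k₁ (encBool b) j.1⟩ := by
    unfold haltList
    congr 1
    funext k
    by_cases hk : k = (mkTM p k₀ k₁).k₁
    · rw [dif_pos hk]
      subst hk
      change List.map id (encBool b) = update (fun _ => []) k₁ (encBool b) k₁
      rw [update_self, List.map_id]
    · rw [dif_neg hk]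
      change [] = update (fun _ => []) k₁ (encBool b) k.1
      rw [update_of_ne]
      intro h
      exact hk (Subtype.ext h)
  refine ⟨⟨b, hb, ?_⟩, ?_⟩
  · obtain ⟨n, hn⟩ := PathB.steps h4
    exact ⟨⟨n, (congrArg (fun z => (flip bind (mkTM p k₀ k₁).step)^[n] (some z)) e1).trans
        (Eq.trans hn (congrArg some e2.symm))⟩⟩
  · intro c hc k
    have hc' := (congrArg (fun z => TM2.Reaches (mkTM p k₀ k₁).m z c) e1).mp hc
    exact PathB.reaches h4 rfl (fun j => hr.bd.1 j.1) c hc' k

/-- `p` leads from `S` to `S'`, all the stacks having at most `B` symbols. -/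
def RunsS (B : ℕ) (p : Prog ℕ) (S S' : Stk ℕ) : Prop := ∀ r, ∃ r', RunS B p r S r' S'

theorem RunsS.of_runs {B c : ℕ} {p : Prog ℕ} {S S' : Stk ℕ} (h : Runs p S S' c)
    (hB : ∀ k, (S k).length + c ≤ B) : RunsS B p S S' := by
  intro r
  obtain ⟨r', c', hc, hr⟩ := h r
  exact ⟨r', RunS.of_run hr (fun k => by have := hB k; omega)⟩

theorem RunsS.seq {B : ℕ} {p q : Prog ℕ} {S S' S'' : Stk ℕ} (h : RunsS B p S S')
    (h' : RunsS B q S' S'') : RunsS B (.seq p q) S S'' := by
  intro r
  obtain ⟨r', h1⟩ := h r
  obtain ⟨r'', h2⟩ := h' r'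
  exact ⟨r'', RunS.seq h1 h2⟩

theorem RunsS.mono {B B' : ℕ} (hB : B ≤ B') {p : Prog ℕ} {S S' : Stk ℕ} (h : RunsS B p S S') :
    RunsS B' p S S' := by
  intro r
  obtain ⟨r', h1⟩ := h r
  exact ⟨r', h1.mono hB⟩

/-- The main loop. -/
theorem loop_runsS {B : ℕ} {body : Prog ℕ} (s : ℕ → List Sym) (T : ℕ)
    (hb : ∀ t < T, RunsS B body (st [s t]) (st [s (t + 1), [one]]))
    (hT : RunsS B body (st [s T]) (st [s T])) (hB : ∀ t ≤ T, Bd B (st [s t, [one]])) :
    ∀ m t, t + m = T → RunsS B (.whil 1 body) (st [s t, [one]]) (st [s T]) := by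
  intro m
  have k1 : ∀ t, update (st [s t, [one]]) 1 [] = st [s t] := by
    intro t
    rw [update_st _ _ _ (by simp)]
    exact st_append_nil [s t]
  induction m with
  | zero =>
    intro t ht r
    obtain rfl : t = T := by omega
    obtain ⟨r', h1⟩ := hT (some one, r.2)
    refine ⟨(none, r'.2), RunS.whilS (a := one) (l := []) rfl (hB t le_rfl) ?_
      (RunS.whilE rfl h1.bd.2)⟩
    rw [k1]
    exact h1
  | succ m ih =>
    intro t ht r
    obtain ⟨r', h1⟩ := hb t (by omega) (some one, r.2)
    obtain ⟨r'', h2⟩ := ih (t + 1) (by omega) r'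
    refine ⟨r'', RunS.whilS (a := one) (l := []) rfl (hB t (by omega)) ?_ h2⟩
    rw [k1]
    exact h1

/-- The body of the loop. -/
def spBody (p : Prog ℕ) : Prog ℕ :=
  .seq (p.map (rl 0 2 3 4 1)) (.seq (.pop 4) (.seq (.pop 4)
    (.ite (fun r => decide (r.1 = some (some true)))
      (clear 4)
      (.seq (.pop 4) (.seq (clear 0) (.seq (move 4 5) (.seq (move 5 0) (push1 1))))))))

theorem runs_pop (k : ℕ) (L : List (List Sym)) (hk : k < L.length) (r : Reg) :
    Run (.pop k) r (st L) ((L.getD k []).head?, r.2) (st (L.set k (L.getD k []).tail)) 1 := by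
  have := Run.pop k r (st L)
  rw [update_st _ _ _ hk] at this
  exact this

theorem runs_push1 (k : ℕ) (L : List (List Sym)) (hk : k < L.length) :
    Runs (push1 k) (st L) (st (L.set k (one :: L.getD k []))) 1 := by
  intro r
  have := run_push1 k r (st L)
  rw [update_st _ _ _ hk] at this
  exact ⟨_, _, le_refl _, this⟩

theorem spBody_halt {p : Prog ℕ} {x t : Str} {c : ℕ}
    (h : Does p x [] [] (true :: true :: false :: t) c) :
    Runs (spBody p) (st [e x]) (st [e x]) (c + 2 * t.length + 6) := by
  have k0 : st [e x] = st [e x, [], [], [], []] := (st_pad [e x] 4).symm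
  have s1 := h.reloc (rl_injective (a := 0) (b := 2) (c := 3) (o := 4) (d := 1) (by decide)
    (by decide) (by decide) (by decide) (by decide) (by decide) (by decide) (by decide) (by decide)
    (by decide)) [e x, [], [], [], []] (by simp) (by simp) rfl rfl rfl rfl
  intro r
  obtain ⟨r1, c1, hc1, hr1⟩ := s1 r
  have s2 := runs_pop 4 [e x, [], [], [], e (true :: true :: false :: t)] (by simp) r1
  have s3 := runs_pop 4 [e x, [], [], [], e (true :: false :: t)] (by simp)
    (some (some true), r1.2)
  obtain ⟨r4, c4, hc4, hr4⟩ := runs_clear 4 [e x, [], [], [], e (false :: t)] (by simp)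
    (some (some true), r1.2)
  have k1 : List.getD [e x, [], [], [], e (false :: t)] 4 [] = e (false :: t) := rfl
  rw [k1, encStr_length, List.length_cons] at hc4
  refine ⟨r4, c1 + (1 + (1 + (c4 + 1))), by omega, ?_⟩
  have k2 : st ([e x, [], [], [], e (false :: t)].set 4 []) = st [e x] := st_pad [e x] 4
  rw [k2] at hr4
  rw [← k0] at hr1
  exact Run.seq hr1 (Run.seq s2 (Run.seq s3 (Run.iteT rfl hr4)))

theorem spBody_step {p : Prog ℕ} {x t : Str} {c : ℕ}
    (h : Does p x [] [] (true :: false :: false :: t) c) :
    Runs (spBody p) (st [e x]) (st [e t, [one]]) (c + 2 * x.length + 4 * t.length + 8) := by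
  have k0 : st [e x] = st [e x, [], [], [], []] := (st_pad [e x] 4).symm
  have s1 := h.reloc (rl_injective (a := 0) (b := 2) (c := 3) (o := 4) (d := 1) (by decide)
    (by decide) (by decide) (by decide) (by decide) (by decide) (by decide) (by decide) (by decide)
    (by decide)) [e x, [], [], [], []] (by simp) (by simp) rfl rfl rfl rfl
  intro r
  obtain ⟨r1, c1, hc1, hr1⟩ := s1 r
  have s2 := runs_pop 4 [e x, [], [], [], e (true :: false :: false :: t)] (by simp) r1
  have s3 := runs_pop 4 [e x, [], [], [], e (false :: false :: t)] (by simp)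
    (some (some true), r1.2)
  have s4 := runs_pop 4 [e x, [], [], [], e (false :: t)] (by simp)
    (some (some false), r1.2)
  have s5 := runs_clear 0 [e x, [], [], [], e t] (by simp)
  have s6 := runs_move 4 5 (by decide) [[], [], [], [], e t, []] (by simp) (by simp)
  have s7 := runs_move 5 0 (by decide) [[], [], [], [], [], (e t).reverse] (by simp) (by simp)
  have s8 := runs_push1 1 [e t, [], [], [], [], []] (by simp)
  have k1 : List.getD [e x, [], [], [], e t] 0 [] = e x := rfl
  have k2 : List.getD [[], [], [], [], e t, []] 4 [] = e t := rfl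
  have k3 : List.getD [[], [], [], [], e t, []] 5 [] = [] := rfl
  have k4 : List.getD [[], [], [], [], [], (e t).reverse] 5 [] = (e t).reverse := rfl
  have k5 : List.getD [[], [], [], [], [], (e t).reverse] 0 [] = [] := rfl
  have k6 : st ([e x, [], [], [], e t].set 0 []) = st [[], [], [], [], e t, []] :=
    (st_append_nil [[], [], [], [], e t]).symm
  rw [k1, encStr_length, k6] at s5
  rw [k2, k3, encStr_length, List.append_nil] at s6
  rw [k4, k5, List.length_reverse, encStr_length, List.reverse_reverse, List.append_nil] at s7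
  have s9 := s5.seq (s6.seq (s7.seq s8))
  obtain ⟨r9, c9, hc9, hr9⟩ := s9 (some (some false), r1.2)
  refine ⟨r9, c1 + (1 + (1 + ((1 + c9) + 1))), by omega, ?_⟩
  have k8 : st ([e t, [], [], [], [], []].set 1 (one :: List.getD [e t, [], [], [], [], []] 1 [])) =
      st [e t, [one]] := st_pad [e t, [one]] 4
  rw [k8] at hr9
  rw [← k0] at hr1
  exact Run.seq hr1 (Run.seq s2 (Run.seq s3 (Run.iteF rfl (Run.seq s4 hr9))))

/-- The whole program. -/
def spProg (p1 p2 p3 : Prog ℕ) : Prog ℕ :=
  .seq (.seq p1 (.seq (clear 0) (.seq (move 3 4) (.seq (move 4 0) (push1 1)))))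
    (.seq (.whil 1 (spBody p2)) (.seq p3 (.seq (clear 0) resetReg)))

theorem runs_start {p : Prog ℕ} {x s : Str} {c : ℕ} (h : Does p x [] [] s c) :
    Runs (.seq p (.seq (clear 0) (.seq (move 3 4) (.seq (move 4 0) (push1 1))))) (st [e x])
      (st [e s, [one]]) (c + 2 * x.length + 4 * s.length + 4) := by
  have k0 : st [e x] = st [e x, [], []] := (st_pad [e x] 2).symm
  have s5 := runs_clear 0 [e x, [], [], e s] (by simp)
  have s6 := runs_move 3 4 (by decide) [[], [], [], e s, []] (by simp) (by simp)
  have s7 := runs_move 4 0 (by decide) [[], [], [], [], (e s).reverse] (by simp) (by simp)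
  have s8 := runs_push1 1 [e s, [], [], [], []] (by simp)
  have k1 : List.getD [e x, [], [], e s] 0 [] = e x := rfl
  have k2 : List.getD [[], [], [], e s, []] 3 [] = e s := rfl
  have k3 : List.getD [[], [], [], e s, []] 4 [] = [] := rfl
  have k4 : List.getD [[], [], [], [], (e s).reverse] 4 [] = (e s).reverse := rfl
  have k5 : List.getD [[], [], [], [], (e s).reverse] 0 [] = [] := rfl
  have k6 : st ([e x, [], [], e s].set 0 []) = st [[], [], [], e s, []] :=
    (st_append_nil [[], [], [], e s]).symm
  rw [k1, encStr_length, k6] at s5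
  rw [k2, k3, encStr_length, List.append_nil] at s6
  rw [k4, k5, List.length_reverse, encStr_length, List.reverse_reverse, List.append_nil] at s7
  have h' : Runs p (st [e x]) (st [e x, [], [], e s]) c := by
    rw [k0]; exact h
  have s9 := h'.seq (s5.seq (s6.seq (s7.seq s8)))
  have k8 : st ([e s, [], [], [], []].set 1 (one :: List.getD [e s, [], [], [], []] 1 [])) =
      st [e s, [one]] := st_pad [e s, [one]] 3
  rw [k8] at s9
  exact s9.mono (by omega)

theorem runs_finish {p : Prog ℕ} {s : Str} {b : Bool} {c : ℕ} (h : Does p s [] [] [b] c) (r : Reg) :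
    ∃ c' ≤ c + 2 * s.length + 2, Run (.seq p (.seq (clear 0) resetReg)) r (st [e s])
      (none, false) (st [[], [], [], encBool b]) c' := by
  have k0 : st [e s] = st [e s, [], []] := (st_pad [e s] 2).symm
  obtain ⟨r1, c1, hc1, hr1⟩ := h r
  obtain ⟨r2, c2, hc2, hr2⟩ := runs_clear 0 [e s, [], [], e [b]] (by simp) r1
  have k1 : List.getD [e s, [], [], e [b]] 0 [] = e s := rfl
  rw [k1, encStr_length] at hc2
  have hr3 := Run.load (K := ℕ) (fun _ => (none, false)) r2 (st ([e s, [], [], e [b]].set 0 []))
  refine ⟨c1 + (c2 + 1), by omega, ?_⟩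
  rw [k0]
  exact Run.seq hr1 (Run.seq hr2 hr3)

/-- Membership engine: a polynomial-time step function iterated on states of polynomial size gives
a language in PSPACE. -/
theorem pspace_iterate {σ : Type} [Code σ] (init : List Bool → σ) (step : σ → σ)
    (halt out : σ → Bool) (hinit : Poly init) (hstep : Poly step) (hhalt : Poly halt)
    (hout : Poly out) (p : Polynomial ℕ)
    (hp : ∀ (x : List Bool) (t : ℕ), size (step^[t] (init x)) ≤ p.eval x.length)
    (L : Set (List Bool))
    (hL : ∀ x : List Bool, ∃ t : ℕ, halt (step^[t] (init x)) = true ∧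
      (∀ t' < t, halt (step^[t'] (init x)) = false) ∧ (out (step^[t] (init x)) = true ↔ x ∈ L)) :
    L ∈ PSPACE := by
  obtain ⟨p1, P1, h1⟩ := F3_iff.1 (F3.ofRaw hinit)
  obtain ⟨p2, P2, h2⟩ := F3_iff.1 (hhalt.pair hstep)
  obtain ⟨p3, P3, h3⟩ := F3_iff.1 hout
  refine ⟨mkTM (spProg p1 p2 p3) 0 3, Equiv.refl _, Equiv.refl _,
    3 * Polynomial.X + P1 + P2.comp p + P3.comp p + 7 * p + 8, ?_, ?_⟩
  · intro k
    exact inferInstanceAs (Finite Sym)
  · apply decidesInSpace_of_runS
    intro x
    obtain ⟨T, hT1, hT2, hT3⟩ := hL x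
    refine ⟨out (step^[T] (init x)), hT3, ?_⟩
    set B := (3 * Polynomial.X + P1 + P2.comp p + P3.comp p + 7 * p + 8).eval x.length with hB
    have hBe : B = 3 * x.length + P1.eval x.length + P2.eval (p.eval x.length) +
        P3.eval (p.eval x.length) + 7 * p.eval x.length + 8 := by
      rw [hB]
      simp only [Polynomial.eval_add, Polynomial.eval_mul, Polynomial.eval_X,
        Polynomial.eval_ofNat, Polynomial.eval_comp]
    have hs : ∀ t, (enc (step^[t] (init x))).length ≤ p.eval x.length := fun t => hp x t
    -- start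
    have hst := h1 x
    have q1 := runs_start hst
    have hlen1 : ∀ k, ((st [e x]) k).length ≤ x.length := by
      intro k
      match k with
      | 0 => exact (encStr_length x).le
      | k + 1 => simp [st_apply]
    have b0 := hs 0
    rw [iterate_zero, id] at b0
    have r1 : RunsS B _ _ _ := RunsS.of_runs q1 (B := B) (fun k => by
      have := hlen1 k
      simp only [List.length_nil, Nat.add_zero]
      omega)
    -- loop
    have r2 := loop_runsS (B := B) (body := spBody p2) (fun t => e (enc (step^[t] (init x)))) T
      (fun t ht => by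
        have g1 := h2 (step^[t] (init x))
        rw [enc_pair, hT2 t ht] at g1
        have g2 := spBody_step (t := enc (step (step^[t] (init x)))) g1
        rw [← iterate_succ_apply' step t] at g2
        refine RunsS.of_runs g2 (fun k => ?_)
        have g3 := hs t
        have g4 : (enc (step^[t.succ] (init x))).length ≤ p.eval x.length := hs (t + 1)
        have g5 : ((st [e (enc (step^[t] (init x)))]) k).length ≤ p.eval x.length := by
          match k with
          | 0 => exact (encStr_length _).le.trans g3
          | k + 1 => simp [st_apply]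
        have g6 := eval_mono P2 g3
        simp only [List.length_nil, Nat.add_zero]
        omega)
      (by
        have g1 := h2 (step^[T] (init x))
        rw [enc_pair, hT1] at g1
        have g2 := spBody_halt (t := enc (step (step^[T] (init x)))) g1
        refine RunsS.of_runs g2 (fun k => ?_)
        have g3 := hs T
        have g4 := hs (T + 1)
        rw [iterate_succ_apply'] at g4
        have g5 : ((st [e (enc (step^[T] (init x)))]) k).length ≤ p.eval x.length := by
          match k with
          | 0 => exact (encStr_length _).le.trans g3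
          | k + 1 => simp [st_apply]
        have g6 := eval_mono P2 g3
        simp only [List.length_nil, Nat.add_zero]
        omega)
      (fun t _ k => by
        have g3 := hs t
        match k with
        | 0 => exact (encStr_length _).le.trans (by omega)
        | 1 =>
          change ([one] : List Sym).length ≤ B
          rw [List.length_singleton]
          omega
        | k + 2 => simp [st_apply])
      T 0 (by omega)
    -- end
    have g1 := h3 (step^[T] (init x))
    rw [enc_bool] at g1
    obtain ⟨ra, hra⟩ := r1 (none, false)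
    obtain ⟨rb, hrb⟩ := r2 ra
    obtain ⟨c3, hc3, hr3⟩ := runs_finish g1 rb
    have r3 : RunS B _ _ _ _ _ := RunS.of_run hr3 (fun k => by
      have g3 := hs T
      have g5 : ((st [e (enc (step^[T] (init x)))]) k).length ≤ p.eval x.length := by
        match k with
        | 0 => exact (encStr_length _).le.trans g3
        | k + 1 => simp [st_apply]
      have g6 := eval_mono P3 g3
      simp only [List.length_nil, Nat.add_zero] at hc3
      omega)
    rw [st_one, st_three]
    exact RunS.seq hra (RunS.seq hrb r3)

end PSP
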