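import Pool.Agent.PolyTime.Core

/-!
# Runs of programs all of whose configurations are small
-/

namespace PSP

open Turing NPC Function

/-- all the stacks have at most `B` symbols -/
def Bd {K : Type} {Γ : K → Type} (B : ℕ) (S : ∀ k, List (Γ k)) : Prop := ∀ k, (S k).length ≤ B

section
variable {K : Type} [DecidableEq K]

/-- Big-step semantics, all the stacks of all the configurations having at most `B` symbols. -/
inductive RunS (B : ℕ) : Prog K → Reg → Stk K → Reg → Stk K → Prop
  | push (k f r S) : Bd B S → Bd B (update S k (f r :: S k)) →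
      RunS B (.push k f) r S r (update S k (f r :: S k))
  | pop (k r S) : Bd B S → Bd B (update S k (S k).tail) →
      RunS B (.pop k) r S ((S k).head?, r.2) (update S k (S k).tail)
  | load (f r S) : Bd B S → RunS B (.load f) r S (f r) S
  | seq {p q r S r' S' r'' S''} : RunS B p r S r' S' → RunS B q r' S' r'' S'' →
      RunS B (.seq p q) r S r'' S''
  | iteT {f p q r S r' S'} : f r = true → RunS B p r S r' S' → RunS B (.ite f p q) r S r' S'
  | iteF {f p q r S r' S'} : f r = false → RunS B q r S r' S' → RunS B (.ite f p q) r S r' S'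
  | whilE {k p r S} : S k = [] → Bd B S → RunS B (.whil k p) r S (none, r.2) S
  | whilS {k p r S a l r' S' r'' S''} : S k = a :: l → Bd B S →
      RunS B p (some a, r.2) (update S k l) r' S' →
      RunS B (.whil k p) r' S' r'' S'' → RunS B (.whil k p) r S r'' S''

theorem RunS.bd {B : ℕ} {p : Prog K} {r S r' S'} (h : RunS B p r S r' S') : Bd B S ∧ Bd B S' := by
  induction h with
  | push k f r S h1 h2 => exact ⟨h1, h2⟩
  | pop k r S h1 h2 => exact ⟨h1, h2⟩
  | load f r S h => exact ⟨h, h⟩
  | seq h1 h2 ih1 ih2 => exact ⟨ih1.1, ih2.2⟩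
  | iteT hf h ih => exact ih
  | iteF hf h ih => exact ih
  | whilE hk h => exact ⟨h, h⟩
  | whilS hk h h1 h2 ih1 ih2 => exact ⟨h, ih2.2⟩

theorem RunS.mono {B B' : ℕ} (hB : B ≤ B') {p : Prog K} {r S r' S'} (h : RunS B p r S r' S') :
    RunS B' p r S r' S' := by
  have key : ∀ S : Stk K, Bd B S → Bd B' S := fun S hS k => (hS k).trans hB
  induction h with
  | push k f r S h1 h2 => exact .push k f r S (key _ h1) (key _ h2)
  | pop k r S h1 h2 => exact .pop k r S (key _ h1) (key _ h2)
  | load f r S h => exact .load f r S (key _ h)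
  | seq h1 h2 ih1 ih2 => exact .seq ih1 ih2
  | iteT hf h ih => exact .iteT hf ih
  | iteF hf h ih => exact .iteF hf ih
  | whilE hk h => exact .whilE hk (key _ h)
  | whilS hk h h1 h2 ih1 ih2 => exact .whilS hk (key _ h) ih1 ih2

/-- A run of cost `c` stays small. -/
theorem RunS.of_run {B : ℕ} {p : Prog K} {r S r' S' c} (h : Run p r S r' S' c) :
    (∀ k, (S k).length + c ≤ B) → RunS B p r S r' S' := by
  induction h with
  | push k f r S =>
    intro hB
    refine .push k f r S (fun j => by have := hB j; omega) (fun j => ?_)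
    by_cases hj : j = k
    · subst hj
      rw [update_self, List.length_cons]
      exact hB j
    · rw [update_of_ne hj]; have := hB j; omega
  | pop k r S =>
    intro hB
    refine .pop k r S (fun j => by have := hB j; omega) (fun j => ?_)
    by_cases hj : j = k
    · subst hj
      rw [update_self, List.length_tail]
      have := hB j; omega
    · rw [update_of_ne hj]; have := hB j; omega
  | load f r S => intro hB; exact .load f r S (fun j => by have := hB j; omega)
  | seq h1 h2 ih1 ih2 =>
    intro hB
    refine .seq (ih1 (fun j => by have := hB j; omega)) (ih2 (fun j => ?_))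
    have := h1.length_le j
    have := hB j
    omega
  | iteT hf h ih => intro hB; exact .iteT hf (ih (fun j => by have := hB j; omega))
  | iteF hf h ih => intro hB; exact .iteF hf (ih (fun j => by have := hB j; omega))
  | whilE hk => intro hB; exact .whilE hk (fun j => by have := hB j; omega)
  | whilS hk h1 h2 ih1 ih2 =>
    rename_i k p r S a l r' S' r'' S'' m n
    intro hB
    have e0 : ∀ j, (update S k l j).length ≤ (S j).length := by
      intro j
      by_cases hj : j = k
      · subst hj
        rw [update_self, hk, List.length_cons]; omega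
      · rw [update_of_ne hj]
    refine .whilS hk (fun j => by have := hB j; omega) (ih1 (fun j => ?_)) (ih2 (fun j => ?_))
    · have := hB j
      have := e0 j
      omega
    · have := h1.length_le j
      have := hB j
      have := e0 j
      omega

/-- the same run on finitely many stacks -/
theorem RunS.restrict {B : ℕ} {F : Finset K} {p : Prog K} {r S r' S'} (h : RunS B p r S r' S') :
    ∀ hp : p.keys ⊆ F, RunS B (p.restrict F hp) r (fun j => S j) r' (fun j => S' j) := by
  induction h with
  | push k f r S h1 h2 =>
    intro hp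
    have h3 : Bd B (fun j : F => update S k (f r :: S k) j) := fun j => h2 j
    rw [update_restrict S k (hp (by simp [Prog.keys]))] at h3 ⊢
    exact RunS.push _ f r _ (fun j => h1 j) h3
  | pop k r S h1 h2 =>
    intro hp
    have h3 : Bd B (fun j : F => update S k (S k).tail j) := fun j => h2 j
    rw [update_restrict S k (hp (by simp [Prog.keys]))] at h3 ⊢
    exact RunS.pop (⟨k, hp (by simp [Prog.keys])⟩ : F) r (fun j => S j) (fun j => h1 j) h3
  | load f r S h => intro hp; exact RunS.load _ _ _ (fun j => h j)
  | seq h1 h2 ih1 ih2 => intro hp; exact RunS.seq (ih1 _) (ih2 _)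
  | iteT hf h ih => intro hp; exact RunS.iteT hf (ih _)
  | iteF hf h ih => intro hp; exact RunS.iteF hf (ih _)
  | whilE hk h => intro hp; exact RunS.whilE hk (fun j => h j)
  | whilS hk h h1 h2 ih1 ih2 =>
    rename_i k p r S a l r' S' r'' S''
    intro hp
    refine RunS.whilS (a := a) (l := l) hk (fun j => h j) ?_ (ih2 hp)
    have := ih1 (fun _ hx => hp (by simp [Prog.keys, hx]))
    rw [update_restrict S k (hp (by simp [Prog.keys]))] at this
    exact this

end

/-! ### Paths of a machine -/

section
variable {K : Type} [DecidableEq K] {Γ : K → Type} {Λ σ : Type}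

/-- one step of a machine, the new configuration being small -/
def StepB (M : Λ → TM2.Stmt Γ Λ σ) (B : ℕ) (a b : TM2.Cfg Γ Λ σ) : Prop :=
  TM2.step M a = some b ∧ Bd B b.stk

/-- a path all of whose configurations but the first one are small -/
abbrev PathB (M : Λ → TM2.Stmt Γ Λ σ) (B : ℕ) : TM2.Cfg Γ Λ σ → TM2.Cfg Γ Λ σ → Prop :=
  Relation.ReflTransGen (StepB M B)

theorem PathB.one {M : Λ → TM2.Stmt Γ Λ σ} {B : ℕ} {a b : TM2.Cfg Γ Λ σ}
    (h : TM2.step M a = some b) (hb : Bd B b.stk) : PathB M B a b :=
  Relation.ReflTransGen.single ⟨h, hb⟩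

theorem PathB.steps {M : Λ → TM2.Stmt Γ Λ σ} {B : ℕ} {a b : TM2.Cfg Γ Λ σ} (h : PathB M B a b) :
    ∃ n, Steps (TM2.step M) n a b := by
  induction h with
  | refl => exact ⟨0, Steps.refl _ _⟩
  | tail _ h2 ih =>
    obtain ⟨n, hn⟩ := ih
    exact ⟨n + 1, hn.trans (Steps.one h2.1)⟩

/-- All the configurations reachable from the start of a path ending in a halting configuration
lie on the path. -/
theorem PathB.reaches {M : Λ → TM2.Stmt Γ Λ σ} {B : ℕ} {a b : TM2.Cfg Γ Λ σ} (h : PathB M B a b)
    (hb : TM2.step M b = none) : Bd B a.stk → ∀ c, TM2.Reaches M a c → Bd B c.stk := by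
  induction h using Relation.ReflTransGen.head_induction_on with
  | refl =>
    intro ha c hc
    rcases Relation.ReflTransGen.cases_head hc with rfl | ⟨d, hd, _⟩
    · exact ha
    · rw [hb] at hd
      exact absurd hd (by simp)
  | head h1 _ ih =>
    intro ha c hc
    rcases Relation.ReflTransGen.cases_head hc with rfl | ⟨d, hd, hd2⟩
    · exact ha
    · rw [h1.1] at hd
      obtain rfl : _ = d := by simpa using hd
      exact ih h1.2 c hd2

end

theorem runS_path {K : Type} [DecidableEq K] {Λ : Type} (M : Λ → TM2.Stmt (fun _ : K => Sym) Λ Reg)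
    {B : ℕ} {p : Prog K} {r S r' S'} (h : RunS B p r S r' S') :
    ∀ (inj : p.Lab → Λ) (ex : Λ), (∀ l, M (inj l) = p.code inj ex l) →
      PathB M B ⟨some (inj p.entry), r, S⟩ ⟨some ex, r', S'⟩ := by
  induction h with
  | push k f r S h1 h2 =>
    intro inj ex hM
    refine PathB.one ?_ h2
    rw [TM2.step, hM]
    simp [Prog.code]
  | pop k r S h1 h2 =>
    intro inj ex hM
    refine PathB.one ?_ h2
    rw [TM2.step, hM]
    simp [Prog.code]
  | load f r S h =>
    intro inj ex hM
    refine PathB.one ?_ h
    rw [TM2.step, hM]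
    simp [Prog.code]
  | seq h1 h2 ih1 ih2 =>
    rename_i p q r S r' S' r'' S''
    intro inj ex hM
    exact Relation.ReflTransGen.trans
      (ih1 (fun l => inj (.inl l)) (inj (.inr q.entry)) (fun l => hM (.inl l)))
      (ih2 (fun l => inj (.inr l)) ex (fun l => hM (.inr l)))
  | iteT hf h ih =>
    rename_i f p q r S r' S'
    intro inj ex hM
    refine Relation.ReflTransGen.trans (b := ⟨some (inj (.inr (.inl p.entry))), r, S⟩)
      (PathB.one ?_ h.bd.1)
      (ih (fun l => inj (.inr (.inl l))) ex (fun l => hM (.inr (.inl l))))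
    rw [TM2.step, hM]
    simp [Prog.code, Prog.entry, hf]
  | iteF hf h ih =>
    rename_i f p q r S r' S'
    intro inj ex hM
    refine Relation.ReflTransGen.trans (b := ⟨some (inj (.inr (.inr q.entry))), r, S⟩)
      (PathB.one ?_ h.bd.1)
      (ih (fun l => inj (.inr (.inr l))) ex (fun l => hM (.inr (.inr l))))
    rw [TM2.step, hM]
    simp [Prog.code, Prog.entry, hf]
  | whilE hk h =>
    rename_i k p r S
    intro inj ex hM
    refine PathB.one ?_ h
    rw [TM2.step, hM]
    have : update S k [] = S := by
      rw [← hk]; exact update_eq_self k S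
    simp [Prog.code, Prog.entry, hk, this]
  | whilS hk h h1 h2 ih1 ih2 =>
    rename_i k p r S a l r' S' r'' S''
    intro inj ex hM
    refine Relation.ReflTransGen.trans
      (b := ⟨some (inj (.inr p.entry)), (some a, r.2), update S k l⟩)
      (PathB.one ?_ h1.bd.1) (Relation.ReflTransGen.trans (ih1 (fun l => inj (.inr l)) (inj (.inl ()))
        (fun l => hM (.inr l))) (ih2 inj ex hM))
    rw [TM2.step, hM]
    simp [Prog.code, Prog.entry, hk]

end PSP
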